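import Pool.Agent.Lib.BLE.RealBounds

/-!
# Row E4 of project BLE: `BND2`
-/

set_option autoImplicit false

namespace Pool.Agent.BLE

open Complex MeasureTheory Finset
open scoped Real
open Pool.Agent.KL Pool.Agent.BLP

noncomputable section

/-- `Psi2` at real points -/
lemma Psi2_real {n : ℕ} (he : Even n) (ε : ℝ) {F : ℂ → ℂ}
    (hj : ∀ w : ℂ, ‖w‖ ≤ 1 → F ((starRingEnd ℂ) w) = (starRingEnd ℂ) (F w))
    {s : ℝ} (hs : 0 ≤ s) (hs1 : s ≤ 1) :
    Psi2 n ε F s = ((1 / (2 * π) * ∫ t : ℝ, gR n (zq n) ε F s t : ℝ) : ℂ) := by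
  have h1 : ∀ t : ℝ, Ef n ε F s t = ((gR n (zq n) ε F s t : ℝ) : ℂ) := by
    intro t
    unfold Ef gR
    rw [Finset.prod_range (fun j => ((1 - zt n j * (s : ℂ)) ^ 2 + (t : ℂ) ^ 2))]
    have h2 := prod_eq_RR he (fun j => zq_rev (n := n) j) s t
    unfold zq at h2
    rw [h2, eF_real hj hs hs1]
    push_cast
    rfl
  unfold Psi2
  simp only [h1]
  rw [integral_complex_ofReal]
  push_cast
  rw [one_div]

lemma psi2_re {n : ℕ} {ε : ℝ} {F : ℂ → ℂ} {h : ℝ → ℝ} {Ψ : ℂ → ℂ} (he : Even n)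
    (hj : ∀ w : ℂ, ‖w‖ ≤ 1 → F ((starRingEnd ℂ) w) = (starRingEnd ℂ) (F w))
    (H : PsiH n ε F h Ψ) {s : ℝ}
    (hs : 0 ≤ s) (hs1 : s < 1) :
    (Ψ (s : ℂ)).re = 1 / (2 * π) * ∫ t : ℝ, gR n (zq n) ε F s t := by
  rw [H.near s (by simpa using hs) (by rw [Complex.norm_real, Real.norm_of_nonneg hs]; exact hs1),
    Psi2_real he ε hj hs hs1.le, Complex.ofReal_re]

lemma psi_low {n : ℕ} {ε p1 A3 : ℝ} {F : ℂ → ℂ} {h : ℝ → ℝ} {Ψ : ℂ → ℂ} (hn : 1 ≤ n) (he : Even n)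
    (hε : 0 ≤ ε) (hc : ContinuousOn F (Metric.closedBall 0 1))
    (hj : ∀ w : ℂ, ‖w‖ ≤ 1 → F ((starRingEnd ℂ) w) = (starRingEnd ℂ) (F w))
    (hF : ∀ w : ℂ, ‖w‖ ≤ 1 → ‖F w - (p1 : ℂ) * w‖ ≤ A3 * ‖w‖ ^ 2) (hA3 : 0 ≤ A3)
    (H : PsiH n ε F h Ψ) (hS : n * ε * p1 ≤ S0 n) {s : ℝ} (hs : 0 ≤ s)
    (hs1 : s < 1) : 1 / (3 * π * √(n : ℝ)) * Real.exp (-(2 * s * (S0 n - n * ε * p1) +
      (1 + 2 * (ε * A3)) * n * s ^ 2)) ≤ (Ψ (s : ℂ)).re := by
  rw [psi2_re he hj H hs hs1]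
  have h1 := psi2_lower (ζ := zq n) (fun j => norm_zt n j) (fun j => (zt_re_neg j.2).le) hc hF hA3
    hε hs hs1.le hn (by rw [SS_zq hn]; linarith)
  rw [SS_zq hn] at h1
  have h2 := psi_zero (n := n) hn
  have hsq : 0 < √(n : ℝ) := Real.sqrt_pos.2 (by exact_mod_cast hn)
  have h3 : 1 / (3 * π * √n) * Real.exp (-(2 * s * (S0 n - n * ε * p1) +
      (1 + 2 * (ε * A3)) * n * s ^ 2)) =
      1 / (2 * π) * (Real.exp (-(2 * s * (S0 n - n * ε * p1) +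
      (1 + 2 * (ε * A3)) * n * s ^ 2)) * (2 / (3 * √n))) := by
    field_simp
  rw [h3]
  refine mul_le_mul_of_nonneg_left ?_ (by positivity)
  refine le_trans ?_ h1
  exact mul_le_mul_of_nonneg_left h2 (Real.exp_pos _).le

lemma psi_up {n : ℕ} {ε p1 A3 : ℝ} {F : ℂ → ℂ} {h : ℝ → ℝ} {Ψ : ℂ → ℂ} (hn : 1 ≤ n) (he : Even n)
    (hε : 0 ≤ ε) (hc : ContinuousOn F (Metric.closedBall 0 1))
    (hj : ∀ w : ℂ, ‖w‖ ≤ 1 → F ((starRingEnd ℂ) w) = (starRingEnd ℂ) (F w))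
    (hF : ∀ w : ℂ, ‖w‖ ≤ 1 → ‖F w - (p1 : ℂ) * w‖ ≤ A3 * ‖w‖ ^ 2) (hA3 : 0 ≤ A3)
    (H : PsiH n ε F h Ψ) (hS : n * ε * p1 ≤ S0 n) {s : ℝ} (hs : 0 ≤ s)
    (hs1 : s < 1) (hS' : 2 * s * (S0 n - n * ε * p1) ≤ n - 1) :
    (Ψ (s : ℂ)).re ≤ 1 / 2 * Real.exp (-(2 * s * (S0 n - n * ε * p1)) +
      (3 + 2 * (ε * A3)) * n * s ^ 2) := by
  rw [psi2_re he hj H hs hs1]
  have h1 := psi2_upper (ζ := zq n) (fun j => norm_zt n j) (fun j => (zt_re_neg j.2).le) hc hF hA3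
    hε hs hs1.le hn (by rw [SS_zq hn]; linarith) (by rw [SS_zq hn]; exact hS')
  rw [SS_zq hn] at h1
  calc 1 / (2 * π) * ∫ t : ℝ, gR n (zq n) ε F s t ≤
      1 / (2 * π) * (π * Real.exp (-(2 * s * (S0 n - n * ε * p1)) +
      (3 + 2 * (ε * A3)) * n * s ^ 2)) := mul_le_mul_of_nonneg_left h1 (by positivity)
    _ = _ := by field_simp

/-- Row E4. -/
theorem bnd2 : BND2 := by
  intro F φ A A2 p1 hHF
  obtain ⟨A3, hA3, hF⟩ := hHF.F1
  have hc := hHF.Fc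
  have hj := hHF.Fj
  have hp1 := hHF.p1p
  refine ⟨14 + 18 * A3, 16, by positivity, fun ε hε hε1 n hn he h Ψ H hS => ?_⟩
  have hn1 : 1 ≤ n := by omega
  have hn16 : (16 : ℝ) ≤ n := by exact_mod_cast hn
  have hn0 : (0 : ℝ) < n := by linarith
  have hsq4 : 4 ≤ √(n : ℝ) := by
    rw [show (4 : ℝ) = √16 by rw [show (16 : ℝ) = 4 ^ 2 by norm_num]; exact (Real.sqrt_sq (by norm_num)).symm]
    exact Real.sqrt_le_sqrt hn16
  have hsq0 : 0 < √(n : ℝ) := by linarith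
  have hss : √(n : ℝ) * √(n : ℝ) = n := Real.mul_self_sqrt hn0.le
  have he4 : ee n ≤ 1 / 4 := by
    unfold ee
    exact one_div_le_one_div_of_le (by norm_num) hsq4
  have he0 : 0 < ee n := by
    unfold ee
    positivity
  have hee := ee_sq (n := n) (by omega)
  have hεA : ε * A3 ≤ A3 := mul_le_of_le_one_left hA3 hε1
  have hεA0 : 0 ≤ ε * A3 := mul_nonneg hε hA3
  have hS0n : S0 n ≤ n := by
    rw [← SS_zq (n := n) (by omega)]
    exact SS_zq_le n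
  have hSS : S0 n - n * ε * p1 ≤ n := by
    have : 0 ≤ n * ε * p1 := by positivity
    linarith
  have hlow : ∀ s : ℝ, 0 ≤ s → s < 1 → n * s ^ 2 ≤ 9 →
      Real.exp (-(2 * s * (S0 n - n * ε * p1)) - (14 + 18 * A3)) / n ≤ (Ψ (s : ℂ)).re := by
    intro s hs hs1 hs9
    refine le_trans ?_ (psi_low hn1 he hε hc hj hF hA3 H hS hs hs1)
    have h1 : Real.exp (-(2 * s * (S0 n - n * ε * p1)) - (14 + 18 * A3)) =
        Real.exp (-5) * Real.exp (-(2 * s * (S0 n - n * ε * p1)) - (9 + 18 * A3)) := by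
      rw [← Real.exp_add]
      congr 1
      ring
    have h2 : Real.exp (-(2 * s * (S0 n - n * ε * p1)) - (9 + 18 * A3)) ≤
        Real.exp (-(2 * s * (S0 n - n * ε * p1) + (1 + 2 * (ε * A3)) * n * s ^ 2)) := by
      apply Real.exp_le_exp.2
      have h3 : (1 + 2 * (ε * A3)) * (n * s ^ 2) ≤ (1 + 2 * A3) * 9 :=
        mul_le_mul (by linarith) hs9 (by positivity) (by linarith)
      nlinarith
    have h4 : Real.exp (-5) / n ≤ 1 / (3 * π * √(n : ℝ)) := by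
      rw [div_le_div_iff₀ hn0 (by positivity), one_mul]
      have h5 : Real.exp (-5) ≤ 1 / 10 := by
        rw [Real.exp_neg, ← one_div]
        apply one_div_le_one_div_of_le (by norm_num)
        have h6 := Real.add_one_le_exp (5 : ℝ)
        have h7 : Real.exp 5 = Real.exp 1 ^ 5 := by
          rw [← Real.exp_nat_mul]
          norm_num
        have h8 : (2 : ℝ) ≤ Real.exp 1 := by
          have := Real.add_one_le_exp (1 : ℝ)
          linarith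
        calc (10 : ℝ) ≤ 2 ^ 5 := by norm_num
          _ ≤ Real.exp 1 ^ 5 := pow_le_pow_left₀ (by norm_num) h8 5
          _ = Real.exp 5 := h7.symm
      have h9 : π < 3.15 := Real.pi_lt_d2
      have h10 : √(n : ℝ) * 4 ≤ n := by nlinarith
      have h11 : 3 * π * √(n : ℝ) ≤ 10 * n := by nlinarith [Real.pi_pos]
      calc Real.exp (-5) * (3 * π * √(n : ℝ)) ≤ 1 / 10 * (10 * n) :=
            mul_le_mul h5 h11 (by positivity) (by norm_num)
        _ = n := by ring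
    rw [h1, mul_div_right_comm]
    exact mul_le_mul h4 h2 (Real.exp_pos _).le (by positivity)
  refine ⟨?_, ?_, ?_⟩
  · refine (psi_up hn1 he hε hc hj hF hA3 H hS he0.le (by linarith) ?_).trans ?_
    · have h1 : 2 * ee n * (S0 n - n * ε * p1) ≤ 2 * ee n * n :=
        mul_le_mul_of_nonneg_left hSS (by linarith)
      have h2 : ee n * n = √(n : ℝ) := by
        unfold ee
        rw [one_div, inv_mul_eq_div, div_eq_iff hsq0.ne', hss]
      nlinarith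
    · refine mul_le_mul_of_nonneg_left (Real.exp_le_exp.2 ?_) (by norm_num)
      have h3 : (3 + 2 * (ε * A3)) * n * ee n ^ 2 = 3 + 2 * (ε * A3) := by
        rw [mul_assoc, hee, mul_one]
      rw [h3]
      linarith
  · have h1 := hlow (2 * ee n) (by linarith) (by linarith) (by nlinarith)
    have h2 : 2 * (2 * ee n) * (S0 n - n * ε * p1) = 4 * ee n * (S0 n - n * ε * p1) := by ring
    rw [h2] at h1
    exact h1
  · have h1 := hlow (3 * ee n) (by linarith) (by linarith) (by nlinarith)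
    have h2 : 2 * (3 * ee n) * (S0 n - n * ε * p1) = 6 * ee n * (S0 n - n * ε * p1) := by ring
    rw [h2] at h1
    exact h1

end

end Pool.Agent.BLE
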