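import Pool.Agent.Lib.BLE.Defs
import Pool.Agent.Lib.BLP.CLA

/-!
# Row E5b: Claim A (helper4, after Lib/BLP/CLA.lean)
-/

set_option autoImplicit false

open Complex MeasureTheory Finset Set Filter Topology

namespace Pool.Agent.BLE

open Pool.Agent.KL Pool.Agent.BLP

noncomputable section

open Pool.Agent.BLP.CLAaux

/-- **Claim A.** -/
theorem cla (hwin : WIN) (hqd : QD) (hsn : SNEG) (hsj : SJB) (hth : THE) (hb1 : BLE.BND1)
    (hb2 : BLE.BND2) : BLE.CLA := by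
  intro F φ A A2 p1 hp ε hε0 e2 hA2 e4 e3
  obtain ⟨D, n1, hD, H2⟩ := hb2 F φ A A2 p1 hp
  obtain ⟨C, hC, H3⟩ := hsn D 4 hD (by norm_num)
  obtain ⟨n2, H4⟩ := hsj
  have hA := hp.A0
  have hp1 := hp.p1p
  refine ⟨C, max (max 4 n1) (max n2 ⌈(10 ^ 13 + 10 ^ 12 * (D + 6)) ^ 2⌉₊), hC, ?_⟩
  intro n hn hev h Ψ hΨ u hu
  have m1 : 4 ≤ n := (le_max_left _ _).trans ((le_max_left _ _).trans hn)
  have m2 : n1 ≤ n := (le_max_right _ _).trans ((le_max_left _ _).trans hn)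
  have m3 : n2 ≤ n := (le_max_left _ _).trans ((le_max_right _ _).trans hn)
  have m4 : ⌈(10 ^ 13 + 10 ^ 12 * (D + 6)) ^ 2⌉₊ ≤ n :=
    (le_max_right _ _).trans ((le_max_right _ _).trans hn)
  have hn1 : 1 ≤ n := by omega
  have hn' : (0 : ℝ) < n := by exact_mod_cast hn1
  have hx : 10 ^ 13 + 10 ^ 12 * (D + 6) ≤ √(n : ℝ) :=
    Real.le_sqrt_of_sq_le ((Nat.le_ceil _).trans (by exact_mod_cast m4))
  obtain ⟨C0, hC0⟩ := hΨ.pw
  obtain ⟨B1, B2⟩ := hb1 F φ A A2 p1 hp ε hε0 hA2 n m1 hev h Ψ hΨ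
  -- S'
  have hS0 := S0_le hn1
  have hS1 := le_S0 hn1
  have hεp : n * ε * p1 ≤ n / 2 := by
    calc n * ε * p1 = n * (ε * p1) := by ring
      _ ≤ n * (1 / 2) := mul_le_mul_of_nonneg_left e3 hn'.le
      _ = _ := by ring
  have hεp0 : 0 ≤ n * ε * p1 := by positivity
  have hS' : n * ε * p1 ≤ S0 n := hεp.trans hS1
  obtain ⟨P1, P2, -⟩ := H2 ε hε0 e2 n m2 hev h Ψ hΨ hS'
  have hSn : 0 ≤ S0 n - n * ε * p1 := by linarith
  -- M
  have hMle : Real.exp (2 * n * ε * A) ≤ Real.exp (1 / 10 ^ 12 * n) := by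
    apply Real.exp_le_exp.2
    calc 2 * n * ε * A = (2 * ε * A) * n := by ring
      _ ≤ _ := mul_le_mul_of_nonneg_right e4 hn'.le
  have hMle2 : Real.exp (2 * n * ε * A) ≤ Real.exp (2 * n) := by
    refine hMle.trans (Real.exp_le_exp.2 ?_)
    nlinarith
  have hM1 : 1 ≤ Real.exp (2 * n * ε * A) := Real.one_le_exp (by positivity)
  have W := hwin n hn1
  have he : 0 < ee n := by
    unfold ee
    positivity
  have hlog : 0 ≤ Real.log n := Real.log_nonneg (by exact_mod_cast hn1)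
  have hu0 : 0 ≤ u := by
    refine le_trans ?_ hu
    positivity
  have G := G_bd (by omega) W hMle2 B1 B2 hΨ.far
  have Q := hqd Ψ C0 hC0 (chr n) W.cont W.nonneg W.le_one (ee n) 4 he G u hu0
  have N := H3 n hn1 (S0 n - n * ε * p1) _ _ hSn P1 P2 u hu
  obtain ⟨J1, J2⟩ := H4 n m3 hev _ C0 Ψ hM1 hC0 B1 hΨ.far
  obtain ⟨T1, T2⟩ := hth n hn1
  have K := comb (J := SJ (chr n) Ψ (ee n) u) (u := u) (th := thet n u) hn1 hD hx hMle
    (e := ee n) rfl (by linarith : S0 n - n * ε * p1 ≤ n) P2 hu0 rfl (T1 u hu0).1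
    (T1 u hu0).2 (T2 u) (J1 u hu0) (J2 u hu0)
  linarith

end

end Pool.Agent.BLE
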