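import Pool.Agent.Lib.BLP.Props

/-!
Project BLE (MP_ef2672, beyond the linear programming limit with an explicit constant):
definitions and the exact statements of the rows (helper46).

The polynomial `p` of project BLP is replaced by a pair `F`, `φ` with `φ z = F (1 / z)`; all the
other objects (`PWH`, `gPW`, `Wf`, `Psi1`, `Bf`, `S0`, `ee`, `chr`, `SJ`, `thet`, ...) are those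
of `Lib/BLP/Defs.lean`.
-/

open Complex MeasureTheory Finset Set

namespace Pool.Agent.BLE

open Pool.Agent.KL Pool.Agent.BLP

noncomputable section

/-- the perturbation: `φ` on the closed right half plane, `F w = φ (1 / w)` on the unit disc -/
structure HF (F φ : ℂ → ℂ) (A A2 p1 : ℝ) : Prop where
  A0 : 0 ≤ A
  A20 : 0 ≤ A2
  p1p : 0 < p1
  φc : ContinuousOn φ {z : ℂ | 0 ≤ z.re}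
  φd : DifferentiableOn ℂ φ {z : ℂ | 0 < z.re}
  φb : ∀ z : ℂ, 0 ≤ z.re → ‖φ z‖ ≤ A
  φj : ∀ z : ℂ, 0 ≤ z.re → φ ((starRingEnd ℂ) z) = (starRingEnd ℂ) (φ z)
  link : ∀ z : ℂ, 0 ≤ z.re → z ≠ 0 → φ z = F (1 / z)
  Fc : ContinuousOn F (Metric.closedBall 0 1)
  Fd : DifferentiableOn ℂ F (Metric.ball 0 1)
  Fb : ∃ B : ℝ, 0 ≤ B ∧ ∀ w : ℂ, ‖w‖ ≤ 1 → ‖F w‖ ≤ B
  Fj : ∀ w : ℂ, ‖w‖ ≤ 1 → F ((starRingEnd ℂ) w) = (starRingEnd ℂ) (F w)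
  F1 : ∃ A3 : ℝ, 0 ≤ A3 ∧ ∀ w : ℂ, ‖w‖ ≤ 1 → ‖F w - (p1 : ℂ) * w‖ ≤ A3 * ‖w‖ ^ 2
  sup : ∀ y : ℝ, (F ((y : ℂ) * I)).re ≤ A
  sign : ∀ y : ℝ, (|y| ≤ 998 / 1000 ∨ 999 / 1000 ≤ |y|) → (F ((y : ℂ) * I)).re ≤ 0
  est : ∀ y t : ℝ, |y| ≤ 1 →
    (F ((y : ℂ) * I / (1 + (t : ℂ) * I)) + F ((y : ℂ) * I / (1 - (t : ℂ) * I))).re ≤
      2 * (F ((y : ℂ) * I)).re + A2 * (t ^ 2 / (1 + t ^ 2))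

/-- `K(z) = e^(n eps phi(z)) / Q(z)` -/
def Kf (n : ℕ) (ε : ℝ) (φ : ℂ → ℂ) (z : ℂ) : ℂ :=
  Complex.exp ((n : ℂ) * (ε : ℂ) * φ z) / ∏ j ∈ range n, (z - zt n j)

/-- `e(s,t)` -/
def eF (F : ℂ → ℂ) (s : ℂ) (t : ℝ) : ℂ :=
  F (s / (1 + (t : ℂ) * I)) + F (s / (1 - (t : ℂ) * I))

/-- the integrand of `Psi2` -/
def Ef (n : ℕ) (ε : ℝ) (F : ℂ → ℂ) (s : ℂ) (t : ℝ) : ℂ :=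
  Complex.exp ((n : ℂ) * (ε : ℂ) * eF F s t) /
    ∏ j ∈ range n, ((1 - zt n j * s) ^ 2 + (t : ℂ) ^ 2)

/-- `Psi2(s)` -/
def Psi2 (n : ℕ) (ε : ℝ) (F : ℂ → ℂ) (s : ℂ) : ℂ :=
  (2 * (Real.pi : ℂ))⁻¹ * ∫ t : ℝ, Ef n ε F s t

/-- the interface, as `BLP.PsiH` -/
structure PsiH (n : ℕ) (ε : ℝ) (F : ℂ → ℂ) (h : ℝ → ℝ) (Ψ : ℂ → ℂ) : Prop where
  pw : ∃ C : ℝ, PWH Ψ C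
  hc : Continuous h
  hi : IntegrableOn (fun v => h v ^ 2) (Ioi 0)
  h1 : ∫ v in Ioi (0 : ℝ), h v ^ 2 ≤ 1
  lap : ∀ s : ℝ, 0 < s → Ψ s =
    (((s ^ (2 * n - 1))⁻¹ * ∫ v in Ioi (0 : ℝ), h v ^ 2 * Real.exp (-(2 / s * v)) : ℝ) : ℂ)
  far : ∀ s : ℂ, 0 ≤ s.re → s ≠ 0 → ‖Ψ s‖ ≤ (‖s‖ ^ (2 * n - 1))⁻¹
  near : ∀ s : ℂ, 0 ≤ s.re → ‖s‖ < 1 → Ψ s = Psi2 n ε F s

/-! ## The rows -/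

/-- E1. The incoherence lemma with a number. -/
def INC : Prop := ∀ (N : ℕ) (A : Matrix (Fin N) (Fin N) ℝ), 1 ≤ N → PF A →
    (∀ w : Fin N → ℤ, w ≠ 0 → 9 / 100 * (N : ℝ) ≤ qf A w) →
    ∀ τ v : ℝ, 0 < τ → τ ≤ 4975 / 10000 → 1 / 2 ≤ v → v ≤ 9995 / 10000 →
    ‖th A ((τ : ℂ) + (v : ℂ) * I)‖ ^ 2 ≤
      2 * Real.exp (-(2 / 10 ^ 11 * N)) * (τ ^ N)⁻¹ * TT A ^ 2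

/-- E2a. -/
def KPW : Prop := ∀ n : ℕ, 2 ≤ n → Even n → ∀ ε : ℝ, 0 ≤ ε → ∀ (F φ : ℂ → ℂ) (A A2 p1 : ℝ),
  HF F φ A A2 p1 → ∃ C : ℝ, PWH (Kf n ε φ) C

/-- E2b. -/
def W0B : Prop := ∀ n : ℕ, 4 ≤ n → Even n → ∀ ε : ℝ, 0 ≤ ε → ∀ (F φ : ℂ → ℂ) (A A2 p1 : ℝ),
  HF F φ A A2 p1 → 2 * ε * A ≤ 1 / 1000 →
  (2 * Real.pi)⁻¹ * ∫ y : ℝ, ‖Kf n ε φ ((y : ℂ) * I)‖ ^ 2 ≤ 1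

/-- E2c (from BLP.PW2, KPW). -/
def EQS : Prop := ∀ n : ℕ, 2 ≤ n → Even n → ∀ ε : ℝ, 0 ≤ ε → ∀ (F φ : ℂ → ℂ) (A A2 p1 : ℝ),
  HF F φ A A2 p1 → ∀ s : ℝ, 0 < s → s < 1 → Psi1 n (gPW (Kf n ε φ)) s = Psi2 n ε F s

/-- E3a. -/
def P2AN : Prop := ∀ n : ℕ, 2 ≤ n → Even n → ∀ ε : ℝ, 0 ≤ ε → ∀ (F φ : ℂ → ℂ) (A A2 p1 : ℝ),
  HF F φ A A2 p1 → DifferentiableOn ℂ (Psi2 n ε F) (Metric.ball 0 1)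

/-- E3b (from BLP.PW2, KPW, W0B, BLP.LAPW, P2AN, EQS). -/
def GLUE : Prop := ∀ n : ℕ, 4 ≤ n → Even n → ∀ ε : ℝ, 0 ≤ ε → ∀ (F φ : ℂ → ℂ) (A A2 p1 : ℝ),
  HF F φ A A2 p1 → 2 * ε * A ≤ 1 / 1000 → ∃ (h : ℝ → ℝ) (Ψ : ℂ → ℂ), PsiH n ε F h Ψ

/-- E4 (as BLP.BND2, with the constants of `HF.F1`). -/
def BND2 : Prop := ∀ (F φ : ℂ → ℂ) (A A2 p1 : ℝ), HF F φ A A2 p1 → ∃ (D : ℝ) (n1 : ℕ), 0 ≤ D ∧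
  ∀ ε : ℝ, 0 ≤ ε → ε ≤ 1 → ∀ n : ℕ, n1 ≤ n → Even n → ∀ (h : ℝ → ℝ) (Ψ : ℂ → ℂ),
    PsiH n ε F h Ψ → n * ε * p1 ≤ S0 n →
    (Ψ ((ee n : ℝ) : ℂ)).re ≤
      1 / 2 * Real.exp (-(2 * ee n * (S0 n - n * ε * p1)) + D) ∧
    Real.exp (-(4 * ee n * (S0 n - n * ε * p1)) - D) / n ≤ (Ψ ((2 * ee n : ℝ) : ℂ)).re ∧
    Real.exp (-(6 * ee n * (S0 n - n * ε * p1)) - D) / n ≤ (Ψ ((3 * ee n : ℝ) : ℂ)).re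

/-- E5a. -/
def BND1 : Prop := ∀ (F φ : ℂ → ℂ) (A A2 p1 : ℝ), HF F φ A A2 p1 →
  ∀ ε : ℝ, 0 ≤ ε → ε * A2 ≤ 1 / 2 →
  ∀ n : ℕ, 4 ≤ n → Even n → ∀ (h : ℝ → ℝ) (Ψ : ℂ → ℂ), PsiH n ε F h Ψ →
    (∀ y : ℝ, ‖Ψ ((y : ℂ) * I)‖ ≤ 2 * Real.exp (2 * n * ε * A)) ∧
    ∀ y : ℝ, (|y| ≤ 998 / 1000 ∨ 999 / 1000 ≤ |y|) → ‖Ψ ((y : ℂ) * I)‖ ≤ 2

/-- E5b (from BLP.WIN, BLP.QD, BLP.SNEG, BLP.SJB, BLP.THE, BND1, BND2). -/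
def CLA : Prop := ∀ (F φ : ℂ → ℂ) (A A2 p1 : ℝ), HF F φ A A2 p1 → ∀ ε : ℝ, 0 ≤ ε → ε ≤ 1 →
  ε * A2 ≤ 1 / 2 → 2 * ε * A ≤ 1 / 10 ^ 12 → ε * p1 ≤ 1 / 2 →
  ∃ (C3 : ℝ) (n3 : ℕ), 0 ≤ C3 ∧ ∀ n : ℕ, n3 ≤ n → Even n → ∀ (h : ℝ → ℝ) (Ψ : ℂ → ℂ),
    PsiH n ε F h Ψ → ∀ u : ℝ,
    2 * (S0 n - n * ε * p1) + √(n : ℝ) * (C3 + 2 * Real.log n) ≤ u →
    SnF (gPW Ψ) (ee n) u ≤ thet n u * SJ (chr n) Ψ (ee n) u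

/-- E5c (from BLP.PW2). -/
def TEST : Prop := ∀ n : ℕ, 4 ≤ n → Even n → ∀ (ε : ℝ) (F : ℂ → ℂ) (h : ℝ → ℝ) (Ψ : ℂ → ℂ),
  PsiH n ε F h Ψ → ∃ G : (Fin (4 * n) → ℝ) → ℝ, PosDef G ∧ Integrable G ∧
    (∀ z, z ≠ 0 → G z = (2 * n - 1).factorial * (nsq z ^ (2 * n - 1))⁻¹ *
      SnF (gPW Ψ) (ee n) (nsq z)) ∧
    0 ≤ G 0 ∧ G 0 ≤ 2 ∧ ∫ z, G z = Real.pi ^ (2 * n) * ((Ψ ((3 * ee n : ℝ) : ℂ)).re / 2)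

/-- E6a. The end, with `g = ε p1`, for every `ε` allowed. From INC, GLUE, BND1, BND2, CLA, TEST and
BLP.PFR, BLP.LPS, BLP.SUMB, BLP.TB. -/
def FIN1 : Prop := ∀ (F φ : ℂ → ℂ) (A A2 p1 : ℝ), HF F φ A A2 p1 → ∀ ε : ℝ, 0 < ε → ε ≤ 1 →
  ε * A2 ≤ 1 / 2 → 2 * ε * A ≤ 1 / 10 ^ 12 → ε * p1 ≤ 1 / 10 ^ 12 →
  ∃ n0 : ℕ, ∀ n : ℕ, n0 ≤ n → Even n →
  ∀ B : Matrix (Fin (4 * n)) (Fin (4 * n)) ℝ, |B.det| = 1 →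
  ∃ w : Fin (4 * n) → ℤ, w ≠ 0 ∧
    Real.pi * qf B w ≤ (1 - ε * p1 / 8) * (4 / Real.pi) * n

end

end Pool.Agent.BLE
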