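import Pool.Agent.Lib.BLP.Props
import Pool.Agent.Lib.LPX.RateDens

/-!
Project BLE (MP_ef2672): the strict upper bound for the density of lattice packings, with numbers.
-/

open MeasureTheory Metric Filter Real

namespace Pool.Agent.BLE

open Pool.Agent.Lib.MP_ef2672_gt_Tauber

lemma seven_le : 7 / (10 : ℝ) ^ 27 ≤ -(logb 2 (1 - π ^ 2 * (1 / (10 : ℝ) ^ 27))) / 2 := by
  have hl2 : Real.log 2 < 0.6931471808 := Real.log_two_lt_d9
  have hl0 : 0 < Real.log 2 := Real.log_pos (by norm_num)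
  have hp : (3.1415 : ℝ) < π := Real.pi_gt_d4
  have hp2 : (9.869 : ℝ) ≤ π ^ 2 := by nlinarith
  have hp3 : π ^ 2 ≤ 10 := by nlinarith [Real.pi_lt_d2, Real.pi_pos]
  have hq0 : 0 < 1 - π ^ 2 * (1 / (10 : ℝ) ^ 27) := by
    have : π ^ 2 * (1 / (10 : ℝ) ^ 27) ≤ 10 * (1 / (10 : ℝ) ^ 27) := by gcongr
    norm_num at this ⊢
    linarith
  have h1 : Real.log (1 - π ^ 2 * (1 / (10 : ℝ) ^ 27)) ≤ -(π ^ 2 * (1 / (10 : ℝ) ^ 27)) := by
    have := Real.log_le_sub_one_of_pos hq0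
    linarith
  have h2 : logb 2 (1 - π ^ 2 * (1 / (10 : ℝ) ^ 27)) ≤ -(14 / (10 : ℝ) ^ 27) := by
    rw [Real.logb, div_le_iff₀ hl0]
    refine h1.trans ?_
    have h3 : 14 * Real.log 2 ≤ π ^ 2 := by nlinarith
    have h4 : 14 * Real.log 2 * (1 / (10 : ℝ) ^ 27) ≤ π ^ 2 * (1 / (10 : ℝ) ^ 27) := by gcongr
    have h5 : -(14 / (10 : ℝ) ^ 27) * Real.log 2 = -(14 * Real.log 2 * (1 / (10 : ℝ) ^ 27)) := by
      ring
    rw [h5]
    linarith
  have h6 : 7 / (10 : ℝ) ^ 27 = 14 / (10 : ℝ) ^ 27 / 2 := by ring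
  rw [h6]
  linarith

/-- The largest density of a lattice packing in dimension `n`, `δ_n = ω_n (γ_n / 4)^(n/2)`, is
at most `2 ^ (-(κ + 7/10^27) n)`, `κ = log₂ (2 π / e) / 2`, for all large `n`. -/
theorem dens (h2 : ∀ᶠ n : ℕ in atTop, c n ≤ 1 / π ^ 2 - 1 / 10 ^ 27) : ∀ᶠ n : ℕ in atTop,
    volume.real (ball (0 : EuclideanSpace ℝ (Fin n)) 1) * (gamma n / 4) ^ ((n : ℝ) / 2) ≤
      (2 : ℝ) ^ (-((logb 2 (2 * π / exp 1) / 2 + 7 / 10 ^ 27) * n)) := by
  have hpi := Real.pi_pos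
  have hp3 : π ^ 2 ≤ 10 := by nlinarith [Real.pi_lt_d2, Real.pi_pos]
  set ε1 : ℝ := 1 / (10 : ℝ) ^ 27 with hε1
  have h10 : 0 < ε1 := by positivity
  set q : ℝ := 1 - π ^ 2 * ε1 with hqd
  have hq0 : 0 < q := by
    have : π ^ 2 * (1 / (10 : ℝ) ^ 27) ≤ 10 * (1 / (10 : ℝ) ^ 27) := by gcongr
    rw [hqd, hε1]
    norm_num at this ⊢
    linarith
  have h7 : 7 / (10 : ℝ) ^ 27 ≤ -(logb 2 q) / 2 := seven_le
  filter_upwards [h2, eventually_gt_atTop 0] with n hn hn0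
  have hnR : (0 : ℝ) < n := by exact_mod_cast hn0
  have hg0 : 0 ≤ gamma n := gamma_nonneg n
  have hg : gamma n ≤ (1 / π ^ 2 - ε1) * n := by
    rwa [c, div_le_iff₀ hnR] at hn
  have hv := Pool.Agent.LPX.vol_le hn0
  have hbase : (2 * π * exp 1 / n) * (gamma n / 4) ≤ exp 1 / (2 * π) * q := by
    calc (2 * π * exp 1 / n) * (gamma n / 4)
        ≤ (2 * π * exp 1 / n) * ((1 / π ^ 2 - ε1) * n / 4) := by
          refine mul_le_mul_of_nonneg_left ?_ (by positivity)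
          linarith
      _ = exp 1 / (2 * π) * q := by
          rw [hqd]
          field_simp
          ring
  have h5 : volume.real (ball (0 : EuclideanSpace ℝ (Fin n)) 1) * (gamma n / 4) ^ ((n : ℝ) / 2) ≤
      (exp 1 / (2 * π) * q) ^ ((n : ℝ) / 2) := by
    calc volume.real (ball (0 : EuclideanSpace ℝ (Fin n)) 1) * (gamma n / 4) ^ ((n : ℝ) / 2)
        ≤ (2 * π * exp 1 / n) ^ ((n : ℝ) / 2) * (gamma n / 4) ^ ((n : ℝ) / 2) :=
          mul_le_mul_of_nonneg_right hv (by positivity)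
      _ = ((2 * π * exp 1 / n) * (gamma n / 4)) ^ ((n : ℝ) / 2) :=
          (Real.mul_rpow (by positivity) (by positivity)).symm
      _ ≤ _ := Real.rpow_le_rpow (by positivity) hbase (by positivity)
  have hb : exp 1 / (2 * π) * q = (2 : ℝ) ^ (-(logb 2 (2 * π / exp 1)) + logb 2 q) := by
    rw [Real.rpow_add (by norm_num), Real.rpow_logb (by norm_num) (by norm_num) hq0,
      Real.rpow_neg (by norm_num), Real.rpow_logb (by norm_num) (by norm_num) (by positivity),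
      inv_div]
  refine h5.trans ?_
  rw [hb, ← Real.rpow_mul (by norm_num)]
  refine Real.rpow_le_rpow_of_exponent_le (by norm_num) ?_
  have h8 : (-(logb 2 (2 * π / exp 1)) + logb 2 q) * ((n : ℝ) / 2) =
      -((logb 2 (2 * π / exp 1) / 2 + -(logb 2 q) / 2) * n) := by ring
  rw [h8, neg_le_neg_iff]
  exact mul_le_mul_of_nonneg_right (by linarith) hnR.le

end Pool.Agent.BLE
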