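import Pool.Agent.Lib.BLP.Props
import Pool.Agent.Lib.KL.Limit
import Pool.Agent.Lib.MP_ef2672_gt_Tauber.Counts
import Pool.Agent.Lib.LPX.RateDens

/-!
Project BLE (MP_ef2672), row E6b: from short vectors in the dimensions `4n`, `n` even, to Hermite's
constant, to all dimensions, and to the density, with numbers (helper54; after `BLP/FIN2`, `FIN3`,
`Dens`).
-/

open MeasureTheory Metric Filter Topology

namespace Pool.Agent.BLE

open Pool.Agent.BLP Pool.Agent.Lib.MP_ef2672_gt_Tauber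

theorem fin2 {g : ℝ} (H : ∃ n0 : ℕ, ∀ n : ℕ, n0 ≤ n → Even n →
    ∀ B : Matrix (Fin (4 * n)) (Fin (4 * n)) ℝ, |B.det| = 1 → ∃ w : Fin (4 * n) → ℤ, w ≠ 0 ∧
      Real.pi * qf B w ≤ (1 - g) * (4 / Real.pi) * n) :
    ∃ n0 : ℕ, ∀ n : ℕ, n0 ≤ n → Even n → c (4 * n) ≤ (1 - g) / Real.pi ^ 2 := by
  obtain ⟨n0, H⟩ := H
  have hpi := Real.pi_pos
  refine ⟨max n0 1, fun n hn he => ?_⟩
  have hn1 : n0 ≤ n := le_trans (le_max_left _ _) hn
  have hn2 : 1 ≤ n := le_trans (le_max_right _ _) hn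
  have hn0 : (0 : ℝ) < n := by exact_mod_cast hn2
  have hg : gamma (4 * n) ≤ (1 - g) * (4 * n) / Real.pi ^ 2 := by
    refine le_of_forall_gt_imp_ge_of_dense fun r hr => ?_
    refine gamma_le_of_short (by omega) fun A hA => ?_
    obtain ⟨w, hw, h1⟩ := H n hn1 he A hA
    refine ⟨w, hw, lt_of_le_of_lt ?_ hr⟩
    have h2 : qf A w ≤ (1 - g) * (4 * n) / Real.pi ^ 2 := by
      rw [le_div_iff₀ (by positivity)]
      have h3 : Real.pi * (Real.pi * qf A w) ≤ Real.pi * ((1 - g) * (4 / Real.pi) * n) :=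
        mul_le_mul_of_nonneg_left h1 hpi.le
      have h4 : Real.pi * ((1 - g) * (4 / Real.pi) * n) = (1 - g) * (4 * n) := by
        field_simp
      rw [h4] at h3
      calc qf A w * Real.pi ^ 2 = Real.pi * (Real.pi * qf A w) := by ring
        _ ≤ _ := h3
    exact h2
  unfold c
  have h5 : ((4 * n : ℕ) : ℝ) = 4 * n := by push_cast; ring
  rw [h5, div_le_iff₀ (by positivity)]
  refine hg.trans (le_of_eq ?_)
  ring

theorem fin3 {x y : ℝ} (H : ∃ n0 : ℕ, ∀ n : ℕ, n0 ≤ n → Even n → c (4 * n) ≤ x) (hxy : x < y) :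
    ∀ᶠ d : ℕ in atTop, c d ≤ y := by
  obtain ⟨n0, H⟩ := H
  obtain ⟨e, he, h1⟩ := slow_decrease (y - x) (by linarith)
  obtain ⟨m0, h3⟩ := exists_nat_gt (7 / e)
  filter_upwards [eventually_ge_atTop (4 * n0 + m0 + 1)] with d hd
  obtain ⟨k, m, hm, hk⟩ : ∃ k m : ℕ, m ≤ 7 ∧ d + m = 8 * k :=
    ⟨(d + 7) / 8, 8 * ((d + 7) / 8) - d, by omega, by omega⟩
  have h4 := H (2 * k) (by omega) (even_two_mul k)
  have h5 := h1 d m (by omega) (by
    have h6 : (m : ℝ) ≤ 7 := by exact_mod_cast hm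
    have h7 : (m0 : ℝ) ≤ d := by exact_mod_cast (by omega : m0 ≤ d)
    rw [div_lt_iff₀ he] at h3
    nlinarith)
  rw [hk] at h5
  rw [show 4 * (2 * k) = 8 * k by ring] at h4
  linarith

theorem limsup_le {y : ℝ} (H : ∀ᶠ d : ℕ in atTop, c d ≤ y) : limsup c atTop ≤ y :=
  limsup_le_of_le (isCoboundedUnder_le_of_le atTop (x := 0) fun n => c_nonneg n) H

/-- The largest density of a lattice packing in dimension `n`, `δ_n = ω_n (γ_n / 4)^(n/2)`. -/
theorem densE {ε : ℝ} (hε : 0 < ε) (hε1 : Real.pi ^ 2 * ε ≤ 1 / 2)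
    (H : ∀ᶠ d : ℕ in atTop, c d ≤ 1 / Real.pi ^ 2 - ε) : ∀ᶠ n : ℕ in atTop,
    volume.real (ball (0 : EuclideanSpace ℝ (Fin n)) 1) * (gamma n / 4) ^ ((n : ℝ) / 2) ≤
      (2 : ℝ) ^ (-((Real.logb 2 (2 * Real.pi / Real.exp 1) / 2 + 7 * ε) * n)) := by
  have hpi := Real.pi_pos
  set q : ℝ := 1 - Real.pi ^ 2 * ε with hqd
  have hq0 : 0 < q := by rw [hqd]; linarith
  have hlq : Real.logb 2 q ≤ -(14 * ε) := by
    have h1 : Real.log q ≤ q - 1 := Real.log_le_sub_one_of_pos hq0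
    have h2 : Real.log 2 < 0.6931471808 := Real.log_two_lt_d9
    have h3 : 0 < Real.log 2 := Real.log_pos (by norm_num)
    have h4 : (9.8596 : ℝ) ≤ Real.pi ^ 2 := by
      have := Real.pi_gt_d2
      nlinarith
    rw [Real.logb, div_le_iff₀ h3]
    have h5 : 14 * ε * Real.log 2 ≤ 14 * ε * 0.6931471808 := by gcongr
    have h6 : 9.8596 * ε ≤ Real.pi ^ 2 * ε := mul_le_mul_of_nonneg_right h4 hε.le
    rw [hqd] at h1
    nlinarith
  filter_upwards [H, eventually_gt_atTop 0] with n hn hn0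
  have hnR : (0 : ℝ) < n := by exact_mod_cast hn0
  have hg0 : 0 ≤ gamma n := gamma_nonneg n
  have hg : gamma n ≤ (1 / Real.pi ^ 2 - ε) * n := by
    rwa [c, div_le_iff₀ hnR] at hn
  have hv := Pool.Agent.LPX.vol_le hn0
  have hbase : (2 * Real.pi * Real.exp 1 / n) * (gamma n / 4) ≤
      Real.exp 1 / (2 * Real.pi) * q := by
    calc (2 * Real.pi * Real.exp 1 / n) * (gamma n / 4)
        ≤ (2 * Real.pi * Real.exp 1 / n) * ((1 / Real.pi ^ 2 - ε) * n / 4) := by
          refine mul_le_mul_of_nonneg_left ?_ (by positivity)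
          linarith
      _ = Real.exp 1 / (2 * Real.pi) * q := by
          rw [hqd]
          field_simp
          ring
  have h5 : volume.real (ball (0 : EuclideanSpace ℝ (Fin n)) 1) *
      (gamma n / 4) ^ ((n : ℝ) / 2) ≤ (Real.exp 1 / (2 * Real.pi) * q) ^ ((n : ℝ) / 2) := by
    calc volume.real (ball (0 : EuclideanSpace ℝ (Fin n)) 1) * (gamma n / 4) ^ ((n : ℝ) / 2)
        ≤ (2 * Real.pi * Real.exp 1 / n) ^ ((n : ℝ) / 2) * (gamma n / 4) ^ ((n : ℝ) / 2) :=
          mul_le_mul_of_nonneg_right hv (by positivity)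
      _ = ((2 * Real.pi * Real.exp 1 / n) * (gamma n / 4)) ^ ((n : ℝ) / 2) :=
          (Real.mul_rpow (by positivity) (by positivity)).symm
      _ ≤ _ := Real.rpow_le_rpow (by positivity) hbase (by positivity)
  have hb : Real.exp 1 / (2 * Real.pi) * q =
      (2 : ℝ) ^ (-(Real.logb 2 (2 * Real.pi / Real.exp 1)) + Real.logb 2 q) := by
    rw [Real.rpow_add (by norm_num), Real.rpow_logb (by norm_num) (by norm_num) hq0,
      Real.rpow_neg (by norm_num), Real.rpow_logb (by norm_num) (by norm_num) (by positivity),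
      inv_div]
  rw [hb, ← Real.rpow_mul (by norm_num)] at h5
  refine h5.trans (Real.rpow_le_rpow_of_exponent_le (by norm_num) ?_)
  have h6 : Real.logb 2 q * (n / 2) ≤ -(14 * ε) * (n / 2) :=
    mul_le_mul_of_nonneg_right hlq (by positivity)
  linarith

end Pool.Agent.BLE
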