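import Pool.Agent.Lib.BLE.Inst

/-!
Project BLE, row E7, third part: the imaginary axis and the instance of `HF` (helper46).
-/

set_option autoImplicit false

open Complex Finset Set

namespace Pool.Agent.BLE

open Pool.Agent.BLP

noncomputable section

/-- `a = 1 + β y` -/
def aa (y : ℝ) : ℝ := 1 + bb * y

/-- `b = ρ y` -/
def bq (y : ℝ) : ℝ := rr * y

/-- `a + i (b + t)` -/
def cc (y t : ℝ) : ℂ := (aa y : ℂ) + ((bq y + t : ℝ) : ℂ) * I

lemma cc_re (y t : ℝ) : (cc y t).re = aa y := by simp [cc]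

lemma cc_im (y t : ℝ) : (cc y t).im = bq y + t := by simp [cc]

lemma cc_sq (y t : ℝ) : ‖cc y t‖ ^ 2 = aa y ^ 2 + (bq y + t) ^ 2 := by
  rw [← Complex.normSq_eq_norm_sq, Complex.normSq_apply, cc_re, cc_im]
  ring

lemma cc0_ne (y : ℝ) : cc y 0 ≠ 0 := by
  intro h
  have h1 := congrArg Complex.re h
  have h2 := congrArg Complex.im h
  rw [cc_re, Complex.zero_re] at h1
  rw [cc_im, Complex.zero_im, add_zero] at h2
  have h3 : y = 0 := by
    unfold bq rr at h2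
    linarith
  rw [h3] at h1
  unfold aa at h1
  norm_num at h1

lemma one_add_ne (t : ℝ) : (1 : ℂ) + (t : ℂ) * I ≠ 0 := by
  intro h
  have := congrArg Complex.re h
  simp at this

lemma alg1 {b c s : ℂ} (h0 : c ≠ 0) (h1 : c + s ≠ 0) :
    -I - 2 * b / (c + s) - (-I - 2 * b / c) = 2 * b * s / (c * (c + s)) := by
  field_simp
  ring

lemma alg2 {b c s : ℂ} (h0 : c ≠ 0) (h1 : c + s ≠ 0) (h2 : c - s ≠ 0) :
    -I - 2 * b / (c + s) + (-I - 2 * b / (c - s)) - 2 * (-I - 2 * b / c) =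
      4 * b * (-s ^ 2) / (c * ((c + s) * (c - s))) := by
  field_simp
  ring

/-- the first argument -/
lemma X1_gen {y t : ℝ} (_h : cc y t ≠ 0) : X1 ((y : ℂ) * I / (1 + (t : ℂ) * I)) =
    -I - 2 * (bq y : ℂ) / cc y t := by
  have hT := one_add_ne t
  have h1 : 1 - P0 * ((y : ℂ) * I / (1 + (t : ℂ) * I)) = cc y t / (1 + (t : ℂ) * I) := by
    rw [eq_div_iff hT, sub_mul, mul_assoc P0, div_mul_cancel₀ _ hT]
    unfold cc aa bq P0
    push_cast
    linear_combination (-(bb : ℂ) * y) * Complex.I_sq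
  have h2 : (y : ℂ) * I / (1 + (t : ℂ) * I) / (1 - P0 * ((y : ℂ) * I / (1 + (t : ℂ) * I))) =
      (y : ℂ) * I / cc y t := by
    rw [h1, div_div_div_cancel_right₀ hT]
  unfold X1
  rw [h2]
  have h3 : 2 * I * (rr : ℂ) * ((y : ℂ) * I / cc y t) = -(2 * (bq y : ℂ) / cc y t) := by
    unfold bq
    push_cast
    have : 2 * I * (rr : ℂ) * ((y : ℂ) * I / cc y t) =
        2 * (rr : ℂ) * (y : ℂ) * (I * I) / cc y t := by ring
    rw [this, Complex.I_mul_I]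
    ring
  rw [h3]
  ring

lemma X1_im (y : ℝ) : X1 ((y : ℂ) * I) = -I - 2 * (bq y : ℂ) / cc y 0 := by
  have := X1_gen (y := y) (t := 0) (cc0_ne y)
  simpa using this

lemma X1_im_div (y : ℝ) : X1 ((y : ℂ) * I) = (-(bq y : ℂ) - (aa y : ℂ) * I) / cc y 0 := by
  rw [X1_im]
  have h := cc0_ne y
  rw [eq_div_iff h, sub_mul, div_mul_cancel₀ _ h]
  unfold cc
  push_cast
  linear_combination (-(bq y : ℂ)) * Complex.I_sq

lemma X1_im_norm (y : ℝ) : ‖X1 ((y : ℂ) * I)‖ = 1 := by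
  have h := cc0_ne y
  have h0 : ‖cc y 0‖ ≠ 0 := norm_ne_zero_iff.2 h
  rw [X1_im_div, norm_div, div_eq_one_iff_eq h0]
  have h1 : ‖(-(bq y : ℂ) - (aa y : ℂ) * I)‖ ^ 2 = ‖cc y 0‖ ^ 2 := by
    rw [cc_sq, ← Complex.normSq_eq_norm_sq, Complex.normSq_apply]
    simp
    ring
  exact (sq_eq_sq₀ (norm_nonneg _) (norm_nonneg _)).1 h1

lemma X1_im_re (y : ℝ) : (X1 ((y : ℂ) * I)).re = -(2 * aa y * bq y) / (aa y ^ 2 + bq y ^ 2) := by
  rw [X1_im_div, Complex.div_re, Complex.normSq_apply, cc_re, cc_im]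
  simp
  ring

/-- the real part of `F` on the imaginary axis -/
lemma FF_im_re (y : ℝ) : (FF ((y : ℂ) * I)).re =
    64 * Hq (X1 ((y : ℂ) * I)).re + 64 * Hq (X1 (((-y : ℝ) : ℂ) * I)).re := by
  have h1 : (starRingEnd ℂ) ((y : ℂ) * I) = ((-y : ℝ) : ℂ) * I := by
    rw [map_mul, Complex.conj_ofReal, Complex.conj_I]
    push_cast
    ring
  unfold FF
  rw [Complex.add_re, Qx_re (X1_im_norm y), X2_eq, h1, Qx_conj, Complex.conj_re,
    Qx_re (X1_im_norm (-y))]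

/-- the cosine is at most `24/25` off the window -/
lemma s_le {y : ℝ} (hy : -(998 / 1000) ≤ y ∨ y ≤ -(999 / 1000)) :
    (X1 ((y : ℂ) * I)).re ≤ 24 / 25 := by
  have hpos : 0 < aa y ^ 2 + bq y ^ 2 := by
    have h := cc_sq y 0
    rw [add_zero] at h
    rw [← h]
    have := norm_pos_iff.2 (cc0_ne y)
    positivity
  rw [X1_im_re, div_le_iff₀ hpos]
  have key : 0 ≤ (3 * aa y + 4 * bq y) * (4 * aa y + 3 * bq y) := by
    rcases hy with h | h
    · apply mul_nonneg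
      · unfold aa bq bb rr
        linarith
      · unfold aa bq bb rr
        linarith
    · apply mul_nonneg_of_nonpos_of_nonpos
      · unfold aa bq bb rr
        linarith
      · unfold aa bq bb rr
        linarith
  nlinarith

lemma FF_sign {y : ℝ} (hy : |y| ≤ 998 / 1000 ∨ 999 / 1000 ≤ |y|) : (FF ((y : ℂ) * I)).re ≤ 0 := by
  have hab : (-(998 / 1000) ≤ y ∨ y ≤ -(999 / 1000)) ∧
      (-(998 / 1000) ≤ -y ∨ -y ≤ -(999 / 1000)) := by
    rcases hy with h | h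
    · have := abs_le.1 h
      exact ⟨Or.inl this.1, Or.inl (by linarith [this.2])⟩
    · rcases le_abs.1 h with h | h
      · exact ⟨Or.inl (by linarith), Or.inr (by linarith)⟩
      · exact ⟨Or.inr (by linarith), Or.inl (by linarith)⟩
  rw [FF_im_re]
  have h1 := Hq_nonpos (s_le hab.1)
  have h2 := Hq_nonpos (s_le hab.2)
  linarith

/-! ### second differences -/

lemma aa_ge {y : ℝ} (hy : |y| ≤ 1) : 288 / 10 ^ 6 ≤ aa y := by
  have := (abs_le.1 hy).1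
  unfold aa bb
  linarith

lemma bq_sq {y : ℝ} (hy : |y| ≤ 1) : bq y ^ 2 ≤ rr ^ 2 := by
  have h1 : y ^ 2 ≤ 1 := by
    rw [← sq_abs]
    nlinarith [abs_nonneg y]
  unfold bq
  rw [mul_pow]
  nlinarith [sq_nonneg rr]

lemma cc_low {y : ℝ} (hy : |y| ≤ 1) (t : ℝ) :
    (288 / 10 ^ 6) ^ 2 / 2 * (1 + t ^ 2) ≤ ‖cc y t‖ ^ 2 := by
  rw [cc_sq]
  have h1 := aa_ge hy
  have h2 := bq_sq hy
  have h3 : (288 / 10 ^ 6 : ℝ) ^ 2 ≤ aa y ^ 2 := pow_le_pow_left₀ (by norm_num) h1 2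
  have h4 : rr ^ 2 ≤ 1 / 10 ^ 5 := by
    unfold rr
    norm_num
  rcases le_or_gt (t ^ 2) 1 with h | h
  · have h5 := sq_nonneg (bq y + t)
    have h6 : (288 / 10 ^ 6 : ℝ) ^ 2 / 2 * (1 + t ^ 2) ≤ (288 / 10 ^ 6 : ℝ) ^ 2 / 2 * 2 :=
      mul_le_mul_of_nonneg_left (by linarith) (by positivity)
    linarith
  · have h5 : t ^ 2 / 2 - bq y ^ 2 ≤ (bq y + t) ^ 2 := by nlinarith [sq_nonneg (t + 2 * bq y)]
    have h6 : (288 / 10 ^ 6 : ℝ) ^ 2 / 2 * (1 + t ^ 2) ≤ 1 / 10 ^ 6 * t ^ 2 := by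
      have : (288 / 10 ^ 6 : ℝ) ^ 2 / 2 * (1 + t ^ 2) ≤ 1 / (2 * 10 ^ 6) * (2 * t ^ 2) :=
        mul_le_mul (by norm_num) (by linarith) (by positivity) (by norm_num)
      linarith
    nlinarith [sq_nonneg (aa y)]

lemma cc_ne {y : ℝ} (hy : |y| ≤ 1) (t : ℝ) : cc y t ≠ 0 := by
  intro h
  have h1 := congrArg Complex.re h
  rw [cc_re, Complex.zero_re] at h1
  have := aa_ge hy
  rw [h1] at this
  norm_num at this

lemma X1_le {y : ℝ} (hy : |y| ≤ 1) (t : ℝ) :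
    ‖X1 ((y : ℂ) * I / (1 + (t : ℂ) * I))‖ ≤ 207 / 16 := by
  rw [X1_gen (cc_ne hy t)]
  refine (norm_sub_le _ _).trans ?_
  rw [norm_neg, Complex.norm_I, norm_div, norm_mul, Complex.norm_real, Real.norm_eq_abs,
    Complex.norm_ofNat]
  have h1 : 288 / 10 ^ 6 ≤ ‖cc y t‖ := by
    have h2 := Complex.abs_re_le_norm (cc y t)
    rw [cc_re] at h2
    exact (aa_ge hy).trans ((le_abs_self _).trans h2)
  have h2 : |bq y| ≤ rr := by
    unfold bq
    rw [abs_mul, abs_of_pos rr_pos]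
    exact mul_le_of_le_one_right rr_pos.le hy
  have h3 : 2 * |bq y| / ‖cc y t‖ ≤ 2 * rr / (288 / 10 ^ 6) := by
    have := rr_pos
    gcongr
  have h4 : 2 * rr / (288 / 10 ^ 6) = 191 / 16 := by
    unfold rr
    norm_num
  linarith

lemma bq_le_cc (y : ℝ) : |bq y| ≤ ‖cc y 0‖ := by
  have h2 := Complex.abs_im_le_norm (cc y 0)
  rw [cc_im, add_zero] at h2
  exact h2

/-- `8/d^2 * t^2/(1+t^2)` -/
def del (t : ℝ) : ℝ := 8 / (288 / 10 ^ 6) ^ 2 * (t ^ 2 / (1 + t ^ 2))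

lemma del_nonneg (t : ℝ) : 0 ≤ del t := by unfold del; positivity

lemma four_div_le {t N : ℝ} (hN : (288 / 10 ^ 6) ^ 2 / 2 * (1 + t ^ 2) ≤ N) :
    4 * t ^ 2 / N ≤ del t := by
  have hT : 0 < 1 + t ^ 2 := by positivity
  have h1 : 4 * t ^ 2 / N ≤ 4 * t ^ 2 / ((288 / 10 ^ 6) ^ 2 / 2 * (1 + t ^ 2)) := by
    gcongr
  refine h1.trans (le_of_eq ?_)
  unfold del
  field_simp
  ring

lemma X1_diff {y : ℝ} (hy : |y| ≤ 1) (t : ℝ) :
    ‖X1 ((y : ℂ) * I / (1 + (t : ℂ) * I)) - X1 ((y : ℂ) * I)‖ ^ 2 ≤ del t := by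
  have h1 := cc_ne hy t
  have h0 := cc0_ne y
  have e1 : X1 ((y : ℂ) * I / (1 + (t : ℂ) * I)) - X1 ((y : ℂ) * I) =
      2 * (bq y : ℂ) * ((t : ℂ) * I) / (cc y 0 * cc y t) := by
    rw [X1_gen h1, X1_im]
    have e2 : cc y t = cc y 0 + (t : ℂ) * I := by
      unfold cc
      push_cast
      ring
    have h1' : cc y 0 + (t : ℂ) * I ≠ 0 := e2 ▸ h1
    rw [e2]
    exact alg1 h0 h1'
  rw [e1, norm_div, norm_mul, norm_mul, norm_mul, norm_mul, Complex.norm_real, Complex.norm_real,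
    Complex.norm_I, mul_one, Complex.norm_ofNat, Real.norm_eq_abs, Real.norm_eq_abs]
  have h2 := bq_le_cc y
  have h3 : 0 < ‖cc y 0‖ := norm_pos_iff.2 h0
  have h4 : 0 < ‖cc y t‖ := norm_pos_iff.2 h1
  have h5 : 2 * |bq y| * |t| / (‖cc y 0‖ * ‖cc y t‖) ≤ 2 * |t| / ‖cc y t‖ := by
    rw [div_le_div_iff₀ (by positivity) h4]
    have : |bq y| * (2 * |t| * ‖cc y t‖) ≤ ‖cc y 0‖ * (2 * |t| * ‖cc y t‖) :=
      mul_le_mul_of_nonneg_right h2 (by positivity)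
    nlinarith
  calc (2 * |bq y| * |t| / (‖cc y 0‖ * ‖cc y t‖)) ^ 2 ≤ (2 * |t| / ‖cc y t‖) ^ 2 :=
        pow_le_pow_left₀ (by positivity) h5 2
    _ = 4 * t ^ 2 / ‖cc y t‖ ^ 2 := by
        rw [div_pow, mul_pow, sq_abs]
        norm_num
    _ ≤ del t := four_div_le (cc_low hy t)

lemma X1_sec {y : ℝ} (hy : |y| ≤ 1) (t : ℝ) :
    ‖X1 ((y : ℂ) * I / (1 + (t : ℂ) * I)) + X1 ((y : ℂ) * I / (1 - (t : ℂ) * I)) -
      2 * X1 ((y : ℂ) * I)‖ ≤ del t := by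
  have h1 := cc_ne hy t
  have h1' := cc_ne hy (-t)
  have h0 := cc0_ne y
  have e3 : (1 : ℂ) - (t : ℂ) * I = 1 + ((-t : ℝ) : ℂ) * I := by
    push_cast
    ring
  have e1 : X1 ((y : ℂ) * I / (1 + (t : ℂ) * I)) + X1 ((y : ℂ) * I / (1 - (t : ℂ) * I)) -
      2 * X1 ((y : ℂ) * I) =
      4 * (bq y : ℂ) * (t : ℂ) ^ 2 / (cc y 0 * (cc y t * cc y (-t))) := by
    rw [e3, X1_gen h1, X1_gen h1', X1_im]
    have e2 : cc y t = cc y 0 + (t : ℂ) * I := by
      unfold cc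
      push_cast
      ring
    have e2' : cc y (-t) = cc y 0 - (t : ℂ) * I := by
      unfold cc
      push_cast
      ring
    have g1 : cc y 0 + (t : ℂ) * I ≠ 0 := e2 ▸ h1
    have g2 : cc y 0 - (t : ℂ) * I ≠ 0 := e2' ▸ h1'
    rw [e2, e2', alg2 h0 g1 g2, mul_pow, Complex.I_sq]
    congr 1
    ring
  rw [e1, norm_div, norm_mul, norm_mul, norm_mul, norm_mul, norm_pow, Complex.norm_real,
    Complex.norm_real, Complex.norm_ofNat, Real.norm_eq_abs, Real.norm_eq_abs, sq_abs]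
  have h2 := bq_le_cc y
  have h3 : 0 < ‖cc y 0‖ := norm_pos_iff.2 h0
  have h4 : 0 < ‖cc y t‖ := norm_pos_iff.2 h1
  have h4' : 0 < ‖cc y (-t)‖ := norm_pos_iff.2 h1'
  have h5 : 4 * |bq y| * t ^ 2 / (‖cc y 0‖ * (‖cc y t‖ * ‖cc y (-t)‖)) ≤
      4 * t ^ 2 / (‖cc y t‖ * ‖cc y (-t)‖) := by
    rw [div_le_div_iff₀ (by positivity) (by positivity)]
    have : |bq y| * (4 * t ^ 2 * (‖cc y t‖ * ‖cc y (-t)‖)) ≤
        ‖cc y 0‖ * (4 * t ^ 2 * (‖cc y t‖ * ‖cc y (-t)‖)) :=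
      mul_le_mul_of_nonneg_right h2 (by positivity)
    nlinarith
  refine h5.trans (four_div_le ?_)
  have h6 := cc_low hy t
  have h7 := cc_low hy (-t)
  rw [neg_sq] at h7
  have hK : 0 ≤ (288 / 10 ^ 6) ^ 2 / 2 * (1 + t ^ 2) := by positivity
  generalize (288 / 10 ^ 6) ^ 2 / 2 * (1 + t ^ 2) = K at h6 h7 hK ⊢
  have h8 : K ^ 2 ≤ (‖cc y t‖ * ‖cc y (-t)‖) ^ 2 := by
    rw [mul_pow, sq K]
    exact mul_le_mul h6 h7 hK (by positivity)
  exact abs_le_of_sq_le_sq' h8 (by positivity) |>.2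

/-- one half of the estimate -/
lemma half_est {y : ℝ} (hy : |y| ≤ 1) (t : ℝ) :
    (Qx (X1 ((y : ℂ) * I / (1 + (t : ℂ) * I))) + Qx (X1 ((y : ℂ) * I / (1 - (t : ℂ) * I)))).re ≤
      2 * (Qx (X1 ((y : ℂ) * I))).re + 1333 / 1000 * 10 ^ 17 * del t := by
  have e3 : (1 : ℂ) - (t : ℂ) * I = 1 + ((-t : ℝ) : ℂ) * I := by
    push_cast
    ring
  have h1 := X1_le hy t
  have h2 := X1_le hy (-t)
  rw [← e3] at h2
  have h3 := X1_diff hy (-t)
  rw [← e3] at h3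
  have e4 : del (-t) = del t := by
    unfold del
    rw [neg_sq]
  rw [e4] at h3
  have key := Qx_second h1 h2 (X1_im_norm y).le (del_nonneg t) (X1_sec hy t) (X1_diff hy t) h3
  have h6 := (Complex.re_le_norm (Qx (X1 ((y : ℂ) * I / (1 + (t : ℂ) * I))) +
    Qx (X1 ((y : ℂ) * I / (1 - (t : ℂ) * I))) - 2 * Qx (X1 ((y : ℂ) * I)))).trans key
  have h7 : (Qx (X1 ((y : ℂ) * I / (1 + (t : ℂ) * I))) +
    Qx (X1 ((y : ℂ) * I / (1 - (t : ℂ) * I))) - 2 * Qx (X1 ((y : ℂ) * I))).re =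
      (Qx (X1 ((y : ℂ) * I / (1 + (t : ℂ) * I))) +
    Qx (X1 ((y : ℂ) * I / (1 - (t : ℂ) * I)))).re - 2 * (Qx (X1 ((y : ℂ) * I))).re := by
    simp
  rw [h7] at h6
  linarith

lemma FF_est {y : ℝ} (hy : |y| ≤ 1) (t : ℝ) :
    (FF ((y : ℂ) * I / (1 + (t : ℂ) * I)) + FF ((y : ℂ) * I / (1 - (t : ℂ) * I))).re ≤
      2 * (FF ((y : ℂ) * I)).re + 26 * 10 ^ 24 * (t ^ 2 / (1 + t ^ 2)) := by
  have c0 : (starRingEnd ℂ) ((y : ℂ) * I) = ((-y : ℝ) : ℂ) * I := by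
    rw [map_mul, Complex.conj_ofReal, Complex.conj_I]
    push_cast
    ring
  have c1 : (starRingEnd ℂ) ((y : ℂ) * I / (1 + (t : ℂ) * I)) =
      ((-y : ℝ) : ℂ) * I / (1 - (t : ℂ) * I) := by
    rw [map_div₀, c0, map_add, map_one, map_mul, Complex.conj_ofReal, Complex.conj_I]
    congr 1
    ring
  have c2 : (starRingEnd ℂ) ((y : ℂ) * I / (1 - (t : ℂ) * I)) =
      ((-y : ℝ) : ℂ) * I / (1 + (t : ℂ) * I) := by
    rw [map_div₀, c0, map_sub, map_one, map_mul, Complex.conj_ofReal, Complex.conj_I]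
    congr 1
    ring
  have h1 := half_est hy t
  have h2 := half_est (y := -y) (by rwa [abs_neg]) t
  have hnum : 2 * (1333 / 1000 * 10 ^ 17 * del t) ≤ 26 * 10 ^ 24 * (t ^ 2 / (1 + t ^ 2)) := by
    unfold del
    have h3 : 0 ≤ t ^ 2 / (1 + t ^ 2) := by positivity
    have h4 : 2 * (1333 / 1000 * 10 ^ 17 * (8 / (288 / 10 ^ 6) ^ 2)) ≤ (26 * 10 ^ 24 : ℝ) := by
      norm_num
    calc 2 * (1333 / 1000 * 10 ^ 17 * (8 / (288 / 10 ^ 6) ^ 2 * (t ^ 2 / (1 + t ^ 2)))) =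
        2 * (1333 / 1000 * 10 ^ 17 * (8 / (288 / 10 ^ 6) ^ 2)) * (t ^ 2 / (1 + t ^ 2)) := by ring
      _ ≤ _ := mul_le_mul_of_nonneg_right h4 h3
  unfold FF
  rw [X2_eq ((y : ℂ) * I / (1 + (t : ℂ) * I)), X2_eq ((y : ℂ) * I / (1 - (t : ℂ) * I)),
    X2_eq ((y : ℂ) * I), c0, c1, c2, Qx_conj, Qx_conj, Qx_conj]
  simp only [Complex.add_re, Complex.conj_re] at h1 h2 ⊢
  linarith

/-! ### the instance -/

/-- **Row E7.** -/
theorem hf : HF FF ff 115200 (26 * 10 ^ 24) (3438 / 625) where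
  A0 := by norm_num
  A20 := by norm_num
  p1p := by norm_num
  φc := fun z hz => (ff_diffAt hz).continuousAt.continuousWithinAt
  φd := fun z hz => (ff_diffAt (le_of_lt hz)).differentiableWithinAt
  φb := fun z hz => ff_norm hz
  φj := fun z _ => ff_conj z
  link := fun z hz h0 => ff_link hz h0
  Fc := fun w hw => (FF_diffAt (by
    rw [Metric.mem_closedBall, dist_zero_right] at hw
    linarith)).continuousAt.continuousWithinAt
  Fd := fun w hw => (FF_diffAt (by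
    rw [Metric.mem_ball, dist_zero_right] at hw
    linarith)).differentiableWithinAt
  Fb := by
    obtain ⟨M, hM⟩ := (isCompact_closedBall (0 : ℂ) 1).exists_bound_of_continuousOn
      (f := FF) (fun w hw => (FF_diffAt (by
        rw [Metric.mem_closedBall, dist_zero_right] at hw
        linarith)).continuousAt.continuousWithinAt)
    exact ⟨M, (norm_nonneg _).trans (hM 0 (by simp)), fun w hw => hM w (by simpa using hw)⟩
  Fj := fun w _ => FF_conj w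
  F1 := FF_first
  sup := by
    intro y
    rcases eq_or_ne y 0 with rfl | hy
    · simp [FF_zero]
    · have hy' : (y : ℂ) ≠ 0 := by exact_mod_cast hy
      have h0 : (1 : ℂ) / ((y : ℂ) * I) ≠ 0 := div_ne_zero one_ne_zero
        (mul_ne_zero hy' Complex.I_ne_zero)
      have hre : ((1 : ℂ) / ((y : ℂ) * I)).re = 0 := by
        have : (1 : ℂ) / ((y : ℂ) * I) = ((-1 / y : ℝ) : ℂ) * I := by
          rw [div_eq_iff (mul_ne_zero hy' Complex.I_ne_zero)]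
          push_cast
          field_simp
          rw [Complex.I_sq]
          ring
        rw [this]
        simp
      have h1 := ff_link (z := 1 / ((y : ℂ) * I)) (by rw [hre]) h0
      rw [one_div_one_div] at h1
      rw [← h1]
      exact (Complex.re_le_norm _).trans (ff_norm (by rw [hre]))
  sign := fun y hy => FF_sign hy
  est := fun y t hy => FF_est hy t

end

end Pool.Agent.BLE
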