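import Pool.Agent.Lib.BLP.Inc
import Pool.Agent.Lib.BLE.Defs

/-!
Row E1 of project BLE: the incoherence lemma with the number `2 / 10^11` (helper47).
-/

set_option autoImplicit false

open MeasureTheory Set Filter Topology

namespace Pool.Agent.BLE

open Pool.Agent.BLP Pool.Agent.BLP.Incx

/-- E1. The incoherence lemma with a number. -/
theorem inc : INC := by
  intro N A hN hP hmin τ v hτ hττ0 hv hvv0
  have hpi := Real.pi_gt_three
  have hpi2 := Real.pi_gt_d2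
  have hτ1 : τ ≤ 1 / 2 := by linarith
  have hvp : 0 < v := by linarith
  have hNp : (0 : ℝ) ≤ N := Nat.cast_nonneg N
  have hd0 : (0 : ℝ) < 1 / 4000 := by norm_num
  have hd2 : (1 / 4000 : ℝ) ≤ 1 / 2 := by norm_num
  have h1 := sq_le hP (v := v) hτ hτ1
  have h2 := sum_le hP (v := v) (m := 9 / 100 * N) hτ hτ1 hv hd0 hd2 (by positivity) hmin
  have hfar : Real.exp (-(Real.pi * (1 / (2 * τ) - 1) *
      ((1 / 4000) ^ 2 * v ^ 2 * (9 / 100 * N)))) ≤ Real.exp (-(2 / 10 ^ 11 * N)) := by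
    refine Real.exp_le_exp.2 (neg_le_neg ?_)
    have e1 : (5 / 995 : ℝ) ≤ 1 / (2 * τ) - 1 := by
      have h : (1000 / 995 : ℝ) ≤ 1 / (2 * τ) := by
        rw [le_div_iff₀ (by linarith)]
        linarith
      linarith
    have e2 : (1 / 4 : ℝ) ≤ v ^ 2 := by nlinarith
    have e3 : (314 / 100 : ℝ) * (5 / 995) ≤ Real.pi * (1 / (2 * τ) - 1) :=
      mul_le_mul (by linarith) e1 (by norm_num) (by linarith)
    calc (2 / 10 ^ 11 * N : ℝ) ≤ 314 / 100 * (5 / 995) * ((1 / 4000) ^ 2 * (1 / 4) *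
          (9 / 100 * N)) := by nlinarith
      _ ≤ Real.pi * (1 / (2 * τ) - 1) * ((1 / 4000) ^ 2 * v ^ 2 * (9 / 100 * N)) := by
          refine mul_le_mul e3 ?_ (by positivity) ((by norm_num : (0 : ℝ) ≤ 314 / 100 *
            (5 / 995)).trans e3)
          exact mul_le_mul_of_nonneg_right (mul_le_mul_of_nonneg_left e2 (sq_nonneg _))
            (by positivity)
  have hnear : (v * (1 + 1 / 4000)) ^ N ≤ Real.exp (-(2 / 10 ^ 11 * N)) := by
    have e1 : v * (1 + 1 / 4000) ≤ Real.exp (-(2 / 10 ^ 11)) := by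
      have := Real.add_one_le_exp (-(2 / 10 ^ 11) : ℝ)
      linarith
    calc (v * (1 + 1 / 4000)) ^ N ≤ Real.exp (-(2 / 10 ^ 11)) ^ N :=
          pow_le_pow_left₀ (by positivity) e1 N
      _ = Real.exp (-(2 / 10 ^ 11 * N)) := by
          rw [← Real.exp_nat_mul]
          congr 1
          ring
  have h3 : ‖th A ((τ : ℂ) + (v : ℂ) * Complex.I)‖ ^ 2 ≤ (2 * τ) ^ (-((N : ℝ) / 2)) *
      ((τ / 2) ^ (-((N : ℝ) / 2)) * TT A ^ 2 *
        (Real.exp (-(2 / 10 ^ 11 * N)) + Real.exp (-(2 / 10 ^ 11 * N)))) := by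
    refine h1.trans (mul_le_mul_of_nonneg_left (h2.trans ?_) (by positivity))
    exact mul_le_mul_of_nonneg_left (add_le_add hfar hnear) (by positivity)
  refine h3.trans (le_of_eq ?_)
  have h4 : (2 * τ) ^ (-((N : ℝ) / 2)) * (τ / 2) ^ (-((N : ℝ) / 2)) = (τ ^ N)⁻¹ := by
    rw [← Real.mul_rpow (by positivity) (by positivity), show 2 * τ * (τ / 2) = τ ^ 2 by ring,
      rpow_sq_neg hτ]
  calc _ = ((2 * τ) ^ (-((N : ℝ) / 2)) * (τ / 2) ^ (-((N : ℝ) / 2))) * TT A ^ 2 *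
        (2 * Real.exp (-(2 / 10 ^ 11 * N))) := by ring
    _ = _ := by
        rw [h4]
        ring

end Pool.Agent.BLE
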