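import Pool.Agent.Lib.BLE.Poly

/-!
Project BLE, row E7, second part: the functions `F`, `φ` and the instance of `HF` (helper46).
-/

set_option autoImplicit false

open Complex Finset Set

namespace Pool.Agent.BLE

open Pool.Agent.BLP

noncomputable section

/-- `ρ` -/
def rr : ℝ := 1719 / 10 ^ 6

/-- `β` -/
def bb : ℝ := 999712 / 10 ^ 6

/-- the pole -/
def P0 : ℂ := -(rr : ℂ) + (bb : ℂ) * I

/-- its conjugate -/
def P1 : ℂ := -(rr : ℂ) - (bb : ℂ) * I

/-- first argument, as a function of `w = 1/z` -/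
def X1 (w : ℂ) : ℂ := -I + 2 * I * (rr : ℂ) * (w / (1 - P0 * w))

/-- second argument -/
def X2 (w : ℂ) : ℂ := I - 2 * I * (rr : ℂ) * (w / (1 - P1 * w))

/-- `F` -/
def FF (w : ℂ) : ℂ := Qx (X1 w) + Qx (X2 w)

/-- first argument, as a function of `z` -/
def Z1 (z : ℂ) : ℂ := -I + 2 * I * (rr : ℂ) / (z - P0)

/-- second argument -/
def Z2 (z : ℂ) : ℂ := I - 2 * I * (rr : ℂ) / (z - P1)

/-- `φ` -/
def ff (z : ℂ) : ℂ := Qx (Z1 z) + Qx (Z2 z)

lemma rr_pos : 0 < rr := by unfold rr; norm_num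

lemma conj_P0 : (starRingEnd ℂ) P0 = P1 := by
  unfold P0 P1
  rw [map_add, map_neg, map_mul, Complex.conj_ofReal, Complex.conj_ofReal, Complex.conj_I]
  ring

lemma conj_P1 : (starRingEnd ℂ) P1 = P0 := by
  rw [← conj_P0, Complex.conj_conj]

lemma X2_eq (w : ℂ) : X2 w = (starRingEnd ℂ) (X1 ((starRingEnd ℂ) w)) := by
  unfold X1 X2
  rw [map_add, map_neg, map_mul, map_mul, map_mul, Complex.conj_ofReal, Complex.conj_I, map_div₀,
    map_sub, map_mul, conj_P0, Complex.conj_conj, map_one]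
  simp only [map_ofNat]
  ring

lemma Z2_eq (z : ℂ) : Z2 z = (starRingEnd ℂ) (Z1 ((starRingEnd ℂ) z)) := by
  unfold Z1 Z2
  rw [map_add, map_neg, map_div₀, map_mul, map_mul, Complex.conj_ofReal, Complex.conj_I,
    map_sub, conj_P0, Complex.conj_conj]
  simp only [map_ofNat]
  ring

lemma FF_conj (w : ℂ) : FF ((starRingEnd ℂ) w) = (starRingEnd ℂ) (FF w) := by
  unfold FF
  rw [X2_eq, X2_eq, map_add, Qx_conj, Qx_conj, Complex.conj_conj, Complex.conj_conj]
  ring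

lemma ff_conj (z : ℂ) : ff ((starRingEnd ℂ) z) = (starRingEnd ℂ) (ff z) := by
  unfold ff
  rw [Z2_eq, Z2_eq, map_add, Qx_conj, Qx_conj, Complex.conj_conj, Complex.conj_conj]
  ring

/-! ### the half plane -/

lemma Z_ne {z : ℂ} (hz : 0 ≤ z.re) : z - P0 ≠ 0 ∧ z - P1 ≠ 0 := by
  have hr := rr_pos
  constructor
  · intro h
    have := congrArg Complex.re h
    simp [P0] at this
    linarith
  · intro h
    have := congrArg Complex.re h
    simp [P1] at this
    linarith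

lemma Z1_norm {z : ℂ} (hz : 0 ≤ z.re) : ‖Z1 z‖ ≤ 1 := by
  have h0 := (Z_ne hz).1
  have h1 : Z1 z = -I * ((z - P0 - 2 * (rr : ℂ)) / (z - P0)) := by
    unfold Z1
    field_simp
    ring
  rw [h1, norm_mul, norm_neg, Complex.norm_I, one_mul, norm_div]
  refine div_le_one_of_le₀ ?_ (norm_nonneg _)
  have hr := rr_pos
  rw [← abs_of_nonneg (norm_nonneg (z - P0 - 2 * (rr : ℂ))), ← abs_of_nonneg (norm_nonneg (z - P0))]
  rw [← sq_le_sq, ← Complex.normSq_eq_norm_sq, ← Complex.normSq_eq_norm_sq, Complex.normSq_apply,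
    Complex.normSq_apply]
  simp only [P0, Complex.sub_re, Complex.sub_im, Complex.add_re, Complex.add_im, Complex.neg_re,
    Complex.neg_im, Complex.mul_re, Complex.mul_im, Complex.ofReal_re, Complex.ofReal_im,
    Complex.I_re, Complex.I_im, Complex.re_ofNat, Complex.im_ofNat]
  nlinarith [mul_nonneg hz hr.le]

lemma Z2_norm {z : ℂ} (hz : 0 ≤ z.re) : ‖Z2 z‖ ≤ 1 := by
  rw [Z2_eq, Complex.norm_conj]
  exact Z1_norm (by simpa using hz)

lemma ff_norm {z : ℂ} (hz : 0 ≤ z.re) : ‖ff z‖ ≤ 115200 := by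
  unfold ff
  refine (norm_add_le _ _).trans ?_
  have h1 := Qx_norm (Z1_norm hz)
  have h2 := Qx_norm (Z2_norm hz)
  linarith

lemma ff_diffAt {z : ℂ} (hz : 0 ≤ z.re) : DifferentiableAt ℂ ff z := by
  unfold ff Z1 Z2
  have h1 : DifferentiableAt ℂ (fun z : ℂ => -I + 2 * I * (rr : ℂ) / (z - P0)) z :=
    (differentiableAt_const _).add ((differentiableAt_const _).div (by fun_prop) (Z_ne hz).1)
  have h2 : DifferentiableAt ℂ (fun z : ℂ => I - 2 * I * (rr : ℂ) / (z - P1)) z :=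
    (differentiableAt_const _).sub ((differentiableAt_const _).div (by fun_prop) (Z_ne hz).2)
  exact (DifferentiableAt.comp (g := Qx) z Qx_diff.differentiableAt h1).add
    (DifferentiableAt.comp (g := Qx) z Qx_diff.differentiableAt h2)

lemma ff_link {z : ℂ} (hz : 0 ≤ z.re) (h0 : z ≠ 0) : ff z = FF (1 / z) := by
  obtain ⟨h1, h2⟩ := Z_ne hz
  have e1 : (1 / z) / (1 - P0 * (1 / z)) = 1 / (z - P0) := by
    field_simp
  have e2 : (1 / z) / (1 - P1 * (1 / z)) = 1 / (z - P1) := by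
    field_simp
  unfold ff FF Z1 Z2 X1 X2
  rw [e1, e2]
  congr 2
  · ring
  · ring

/-! ### the disc -/

lemma P0_norm : ‖P0‖ ≤ 9998 / 10000 := by
  have h1 : ‖P0‖ ^ 2 = rr ^ 2 + bb ^ 2 := by
    rw [← Complex.normSq_eq_norm_sq, Complex.normSq_apply]
    simp [P0]
    ring
  have h2 : rr ^ 2 + bb ^ 2 ≤ (9998 / 10000 : ℝ) ^ 2 := by
    unfold rr bb
    norm_num
  rw [← h1] at h2
  exact abs_le_of_sq_le_sq' h2 (by norm_num) |>.2

lemma P1_norm : ‖P1‖ ≤ 9998 / 10000 := by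
  rw [← conj_P0, Complex.norm_conj]
  exact P0_norm

lemma W_ne {P w : ℂ} (hP : ‖P‖ ≤ 9998 / 10000) (hw : ‖w‖ < 10001 / 10000) : 1 - P * w ≠ 0 := by
  intro h
  have h1 : P * w = 1 := (sub_eq_zero.1 h).symm
  have h2 : ‖P * w‖ = 1 := by rw [h1, norm_one]
  rw [norm_mul] at h2
  have h3 : ‖P‖ * ‖w‖ ≤ 9998 / 10000 * (10001 / 10000) :=
    mul_le_mul hP hw.le (norm_nonneg _) (by norm_num)
  rw [h2] at h3
  norm_num at h3

lemma FF_diffAt {w : ℂ} (hw : ‖w‖ < 10001 / 10000) : DifferentiableAt ℂ FF w := by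
  unfold FF X1 X2
  have h1 : DifferentiableAt ℂ (fun w : ℂ => -I + 2 * I * (rr : ℂ) * (w / (1 - P0 * w))) w :=
    (differentiableAt_const _).add ((differentiableAt_const _).mul
      (DifferentiableAt.div (by fun_prop) (by fun_prop) (W_ne P0_norm hw)))
  have h2 : DifferentiableAt ℂ (fun w : ℂ => I - 2 * I * (rr : ℂ) * (w / (1 - P1 * w))) w :=
    (differentiableAt_const _).sub ((differentiableAt_const _).mul
      (DifferentiableAt.div (by fun_prop) (by fun_prop) (W_ne P1_norm hw)))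
  exact (DifferentiableAt.comp (g := Qx) w Qx_diff.differentiableAt h1).add
    (DifferentiableAt.comp (g := Qx) w Qx_diff.differentiableAt h2)

lemma FF_zero : FF 0 = 0 := by
  have h := Qx_add (x := -I) (by simp)
  have h1 : (-I : ℂ)⁻¹ = I := by
    rw [inv_neg, Complex.inv_I, neg_neg]
  rw [h1] at h
  unfold FF X1 X2
  simp only [zero_div, mul_zero, add_zero, sub_zero]
  rw [h]
  simp

/-! ### the derivative at zero -/

/-- the derivative of `Q` -/
def Qd (x : ℂ) : ℂ := 4086 + 8928 * x + 16632 * x ^ 2 + 25472 * x ^ 3 + 32640 * x ^ 4 +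
  40608 * x ^ 5 + 42399 * x ^ 6 + 44960 * x ^ 7 + 38313 * x ^ 8 + 31680 * x ^ 9 + 21208 * x ^ 10 +
  9984 * x ^ 11 + 5200 * x ^ 12

lemma Qx_hasDeriv (x : ℂ) : HasDerivAt Qx (Qd x) x := by
  have h : ∀ k : ℕ, HasDerivAt (fun x : ℂ => (cq k : ℂ) * x ^ k)
      ((cq k : ℂ) * (k * x ^ (k - 1))) x := fun k => (hasDerivAt_pow k x).const_mul _
  have h2 : HasDerivAt (fun x : ℂ => ∑ k ∈ range 14, (cq k : ℂ) * x ^ k)
      (∑ k ∈ range 14, (cq k : ℂ) * (k * x ^ (k - 1))) x := HasDerivAt.fun_sum fun k _ => h k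
  have h3 : (∑ k ∈ range 14, (cq k : ℂ) * (k * x ^ (k - 1))) = Qd x := by
    unfold Qd
    simp only [sum_range_succ, sum_range_zero, cq]
    push_cast
    ring
  rw [h3] at h2
  exact h2

lemma Qd_negI : Qd (-I) = -800 * I := by
  unfold Qd
  have h2 : (-I : ℂ) ^ 2 = -1 := by rw [neg_sq, Complex.I_sq]
  have h3 : (-I : ℂ) ^ 3 = I := by rw [pow_succ, h2]; ring
  have h4 : (-I : ℂ) ^ 4 = 1 := by rw [pow_succ, h3, mul_neg, Complex.I_mul_I]; ring
  have h5 : (-I : ℂ) ^ 5 = -I := by rw [pow_succ, h4]; ring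
  have h6 : (-I : ℂ) ^ 6 = -1 := by rw [pow_succ, h5, neg_mul_neg, Complex.I_mul_I]
  have h7 : (-I : ℂ) ^ 7 = I := by rw [pow_succ, h6]; ring
  have h8 : (-I : ℂ) ^ 8 = 1 := by rw [pow_succ, h7, mul_neg, Complex.I_mul_I]; ring
  have h9 : (-I : ℂ) ^ 9 = -I := by rw [pow_succ, h8]; ring
  have h10 : (-I : ℂ) ^ 10 = -1 := by rw [pow_succ, h9, neg_mul_neg, Complex.I_mul_I]
  have h11 : (-I : ℂ) ^ 11 = I := by rw [pow_succ, h10]; ring
  have h12 : (-I : ℂ) ^ 12 = 1 := by rw [pow_succ, h11, mul_neg, Complex.I_mul_I]; ring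
  rw [h2, h3, h4, h5, h6, h7, h8, h9, h10, h11, h12]
  ring

lemma Qd_I : Qd I = 800 * I := by
  unfold Qd
  have h2 : (I : ℂ) ^ 2 = -1 := Complex.I_sq
  have h3 : (I : ℂ) ^ 3 = -I := by rw [pow_succ, h2]; ring
  have h4 : (I : ℂ) ^ 4 = 1 := by rw [pow_succ, h3, neg_mul, Complex.I_mul_I]; ring
  have h5 : (I : ℂ) ^ 5 = I := by rw [pow_succ, h4]; ring
  have h6 : (I : ℂ) ^ 6 = -1 := by rw [pow_succ, h5, Complex.I_mul_I]
  have h7 : (I : ℂ) ^ 7 = -I := by rw [pow_succ, h6]; ring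
  have h8 : (I : ℂ) ^ 8 = 1 := by rw [pow_succ, h7, neg_mul, Complex.I_mul_I]; ring
  have h9 : (I : ℂ) ^ 9 = I := by rw [pow_succ, h8]; ring
  have h10 : (I : ℂ) ^ 10 = -1 := by rw [pow_succ, h9, Complex.I_mul_I]
  have h11 : (I : ℂ) ^ 11 = -I := by rw [pow_succ, h10]; ring
  have h12 : (I : ℂ) ^ 12 = 1 := by rw [pow_succ, h11, neg_mul, Complex.I_mul_I]; ring
  rw [h2, h3, h4, h5, h6, h7, h8, h9, h10, h11, h12]
  ring

lemma U_hasDeriv (P : ℂ) : HasDerivAt (fun w : ℂ => w / (1 - P * w)) 1 0 := by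
  have h1 : HasDerivAt (fun w : ℂ => 1 - P * w) (-P) 0 := by
    have := ((hasDerivAt_id (0 : ℂ)).const_mul P).const_sub 1
    simpa using this
  have h2 := (hasDerivAt_id (0 : ℂ)).fun_div h1 (by simp)
  have e : (1 * (1 - P * 0) - id (0 : ℂ) * -P) / (1 - P * 0) ^ 2 = 1 := by simp
  rw [e] at h2
  exact h2

lemma FF_hasDeriv : HasDerivAt FF (((3438 / 625 : ℝ) : ℂ)) 0 := by
  have h1 : HasDerivAt X1 (2 * I * (rr : ℂ)) 0 := by
    have := ((U_hasDeriv P0).const_mul (2 * I * (rr : ℂ))).const_add (-I)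
    rw [mul_one] at this
    exact this
  have h2 : HasDerivAt X2 (-(2 * I * (rr : ℂ))) 0 := by
    have := ((U_hasDeriv P1).const_mul (2 * I * (rr : ℂ))).const_sub I
    rw [mul_one] at this
    exact this
  have e1 : X1 0 = -I := by unfold X1; simp
  have e2 : X2 0 = I := by unfold X2; simp
  have h3 : HasDerivAt (fun w => Qx (X1 w)) (Qd (X1 0) * (2 * I * (rr : ℂ))) 0 :=
    HasDerivAt.comp (h₂ := Qx) 0 (Qx_hasDeriv (X1 0)) h1
  have h4 : HasDerivAt (fun w => Qx (X2 w)) (Qd (X2 0) * (-(2 * I * (rr : ℂ)))) 0 :=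
    HasDerivAt.comp (h₂ := Qx) 0 (Qx_hasDeriv (X2 0)) h2
  have h5 := h3.add h4
  rw [e1, e2, Qd_negI, Qd_I] at h5
  have e3 : -800 * I * (2 * I * (rr : ℂ)) + 800 * I * (-(2 * I * (rr : ℂ))) =
      ((3438 / 625 : ℝ) : ℂ) := by
    have : -800 * I * (2 * I * (rr : ℂ)) + 800 * I * (-(2 * I * (rr : ℂ))) =
        -3200 * (rr : ℂ) * (I * I) := by ring
    rw [this, Complex.I_mul_I]
    unfold rr
    push_cast
    norm_num
  rw [e3] at h5
  exact h5

lemma FF_first : ∃ A3 : ℝ, 0 ≤ A3 ∧ ∀ w : ℂ, ‖w‖ ≤ 1 →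
    ‖FF w - ((3438 / 625 : ℝ) : ℂ) * w‖ ≤ A3 * ‖w‖ ^ 2 := by
  set U : Set ℂ := Metric.ball 0 (10001 / 10000) with hU
  have hUo : IsOpen U := Metric.isOpen_ball
  have h0 : U ∈ nhds (0 : ℂ) := Metric.ball_mem_nhds _ (by norm_num)
  have hd : DifferentiableOn ℂ FF U := fun w hw =>
    (FF_diffAt (by simpa [hU] using hw)).differentiableWithinAt
  have hd1 : DifferentiableOn ℂ (dslope FF 0) U := (Complex.differentiableOn_dslope h0).2 hd
  have hd2 : DifferentiableOn ℂ (dslope (dslope FF 0) 0) U :=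
    (Complex.differentiableOn_dslope h0).2 hd1
  have hsub : Metric.closedBall (0 : ℂ) 1 ⊆ U := by
    intro w hw
    rw [Metric.mem_closedBall, dist_zero_right] at hw
    rw [hU, Metric.mem_ball, dist_zero_right]
    linarith
  obtain ⟨M, hM⟩ := (isCompact_closedBall (0 : ℂ) 1).exists_bound_of_continuousOn
    (hd2.continuousOn.mono hsub)
  have hM0 : 0 ≤ M := (norm_nonneg _).trans (hM 0 (by simp))
  refine ⟨M, hM0, fun w hw => ?_⟩
  have e1 : FF w = w * dslope FF 0 w := by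
    have := sub_smul_dslope FF 0 w
    rw [FF_zero, sub_zero, sub_zero, smul_eq_mul] at this
    exact this.symm
  have e2 : dslope FF 0 w = ((3438 / 625 : ℝ) : ℂ) + w * dslope (dslope FF 0) 0 w := by
    have := sub_smul_dslope (dslope FF 0) 0 w
    rw [sub_zero, smul_eq_mul, dslope_same, FF_hasDeriv.deriv] at this
    rw [this]
    ring
  have e3 : FF w - ((3438 / 625 : ℝ) : ℂ) * w = w ^ 2 * dslope (dslope FF 0) 0 w := by
    rw [e1, e2]
    ring
  rw [e3, norm_mul, norm_pow, mul_comm]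
  exact mul_le_mul_of_nonneg_right (hM w (by simpa using hw)) (by positivity)

end

end Pool.Agent.BLE
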