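import Pool.Agent.Lib.BLE.Defs
import Pool.Agent.Lib.BLP.KPW

/-!
Project BLE (MP_ef2672), row E2a: `K` belongs to the Paley-Wiener class (helper44, after
`Lib/BLP/KPW.lean`).
-/

open Complex Finset Set

namespace Pool.Agent.BLE

open Pool.Agent.KL Pool.Agent.BLP Pool.Agent.BLP.KPWx

theorem kpw : KPW := by
  intro n hn _ ε hε F φ A A2 p1 H
  have hD : 0 < ∏ j ∈ range n, (Real.cos (psi n j) / (Real.cos (psi n j) + 2)) :=
    Finset.prod_pos fun j hj => by
      have hc := cos_psi_pos (Finset.mem_range.1 hj)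
      positivity
  refine ⟨Real.exp (n * ε * A) /
    ∏ j ∈ range n, (Real.cos (psi n j) / (Real.cos (psi n j) + 2)), ?_, ?_, ?_, ?_⟩
  · unfold BLE.Kf
    refine ContinuousOn.div ?_ (by fun_prop) fun z hz => prod_ne hz
    exact Complex.continuous_exp.comp_continuousOn (continuousOn_const.mul H.φc)
  · unfold BLE.Kf
    refine DifferentiableOn.div ?_ (by fun_prop) fun z hz => prod_ne (le_of_lt hz)
    exact Complex.differentiable_exp.comp_differentiableOn ((differentiableOn_const _).mul H.φd)
  · intro z hz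
    unfold BLE.Kf
    rw [norm_div, div_div]
    have h1 : ‖Complex.exp ((n : ℂ) * (ε : ℂ) * φ z)‖ ≤ Real.exp (n * ε * A) := by
      rw [Complex.norm_exp]
      refine Real.exp_le_exp.2 ((Complex.re_le_norm _).trans ?_)
      rw [norm_mul, norm_mul, Complex.norm_natCast, Complex.norm_real, Real.norm_of_nonneg hε]
      exact mul_le_mul_of_nonneg_left (H.φb z hz) (by positivity)
    exact div_le_div₀ (Real.exp_pos _).le h1 (by positivity) (prod_lower hn hz)
  · intro z hz
    unfold BLE.Kf
    rw [map_div₀, ← Complex.exp_conj]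
    congr 1
    · congr 1
      rw [map_mul, map_mul, Complex.conj_natCast, Complex.conj_ofReal, H.φj z hz]
    · rw [prod_conj]

end Pool.Agent.BLE
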