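import Pool.Agent.Lib.BLE.Main0
import Pool.Agent.Lib.BLE.Inc
import Pool.Agent.Lib.BLE.Imag

/-!
Project BLE (MP_ef2672): Hermite's constant is below the linear programming limit, with a number
(helper54).
-/

open Filter

namespace Pool.Agent.BLE

open Pool.Agent.BLP Pool.Agent.Lib.MP_ef2672_gt_Tauber

/-- **The strict upper bound with a number.** -/
theorem main : limsup c atTop ≤ 1 / Real.pi ^ 2 - 1 / 10 ^ 27 ∧
    ∀ᶠ n : ℕ in atTop, c n ≤ 1 / Real.pi ^ 2 - 1 / 10 ^ 27 := mainOf inc hf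

end Pool.Agent.BLE
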