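import Pool.Agent.Lib.BLE.Defs
import Pool.Agent.Lib.BLP.P2AN

/-! E3a: `Psi2` is analytic in the unit disc (helper21). -/

set_option autoImplicit false

open Complex MeasureTheory Finset Set Filter Topology

namespace Pool.Agent.BLE

open Pool.Agent.KL Pool.Agent.BLP

namespace P2e

open Pool.Agent.BLP.P2ANx

lemma one_le_den (t : ℝ) : 1 ≤ ‖1 + (t : ℂ) * I‖ ∧ 1 ≤ ‖1 - (t : ℂ) * I‖ := by
  constructor
  · have h := Complex.re_le_norm (1 + (t : ℂ) * I)
    have h1 : (1 + (t : ℂ) * I).re = 1 := by simp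
    rwa [h1] at h
  · have h := Complex.re_le_norm (1 - (t : ℂ) * I)
    have h1 : (1 - (t : ℂ) * I).re = 1 := by simp
    rwa [h1] at h

lemma den_ne1 (t : ℝ) : 1 + (t : ℂ) * I ≠ 0 ∧ 1 - (t : ℂ) * I ≠ 0 := by
  have h := one_le_den t
  constructor
  · intro h0
    rw [h0, norm_zero] at h
    linarith [h.1]
  · intro h0
    rw [h0, norm_zero] at h
    linarith [h.2]

lemma arg_le (s : ℂ) (t : ℝ) :
    ‖s / (1 + (t : ℂ) * I)‖ ≤ ‖s‖ ∧ ‖s / (1 - (t : ℂ) * I)‖ ≤ ‖s‖ := by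
  have h := one_le_den t
  constructor
  · rw [norm_div]
    exact div_le_self (norm_nonneg _) h.1
  · rw [norm_div]
    exact div_le_self (norm_nonneg _) h.2

section
variable {F : ℂ → ℂ}

lemma eF_bd {B : ℝ} (hB : ∀ w : ℂ, ‖w‖ ≤ 1 → ‖F w‖ ≤ B) {s : ℂ} (hs : ‖s‖ ≤ 1) (t : ℝ) :
    ‖eF F s t‖ ≤ B + B := by
  unfold eF
  exact (norm_add_le _ _).trans (add_le_add (hB _ ((arg_le s t).1.trans hs))
    (hB _ ((arg_le s t).2.trans hs)))

lemma Ef_cont_t (hFd : DifferentiableOn ℂ F (Metric.ball 0 1)) (n : ℕ) (ε : ℝ) {s : ℂ}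
    (hs : ‖s‖ < 1) : Continuous fun t : ℝ => Ef n ε F s t := by
  have hFc : ∀ w : ℂ, ‖w‖ < 1 → ContinuousAt F w := fun w hw =>
    (hFd.differentiableAt (Metric.isOpen_ball.mem_nhds (by
      rwa [Metric.mem_ball, dist_zero_right]))).continuousAt
  unfold Ef eF
  refine Continuous.div ?_ (by fun_prop) fun t => prod_ne hs t
  refine Complex.continuous_exp.comp (continuous_const.mul (Continuous.add ?_ ?_))
  · rw [continuous_iff_continuousAt]
    intro t
    have h1 : ContinuousAt (fun t : ℝ => s / (1 + (t : ℂ) * I)) t :=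
      (Continuous.div continuous_const (by fun_prop) fun t => (den_ne1 t).1).continuousAt
    exact ContinuousAt.comp (g := F) (f := fun t : ℝ => s / (1 + (t : ℂ) * I))
      (hFc _ ((arg_le s t).1.trans_lt hs)) h1
  · rw [continuous_iff_continuousAt]
    intro t
    have h1 : ContinuousAt (fun t : ℝ => s / (1 - (t : ℂ) * I)) t :=
      (Continuous.div continuous_const (by fun_prop) fun t => (den_ne1 t).2).continuousAt
    exact ContinuousAt.comp (g := F) (f := fun t : ℝ => s / (1 - (t : ℂ) * I))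
      (hFc _ ((arg_le s t).2.trans_lt hs)) h1

lemma Ef_diff_s (hFd : DifferentiableOn ℂ F (Metric.ball 0 1)) (n : ℕ) (ε : ℝ) (t : ℝ) {s : ℂ}
    (hs : ‖s‖ < 1) : DifferentiableAt ℂ (fun s => Ef n ε F s t) s := by
  have hFa : ∀ w : ℂ, ‖w‖ < 1 → DifferentiableAt ℂ F w := fun w hw =>
    hFd.differentiableAt (Metric.isOpen_ball.mem_nhds (by
      rwa [Metric.mem_ball, dist_zero_right]))
  unfold Ef eF
  refine DifferentiableAt.div ?_ (by fun_prop) (prod_ne hs t)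
  refine DifferentiableAt.cexp (DifferentiableAt.const_mul (DifferentiableAt.add ?_ ?_) _)
  · exact DifferentiableAt.comp (g := F) s (hFa _ ((arg_le s t).1.trans_lt hs))
      (DifferentiableAt.div (by fun_prop) (by fun_prop) (den_ne1 t).1)
  · exact DifferentiableAt.comp (g := F) s (hFa _ ((arg_le s t).2.trans_lt hs))
      (DifferentiableAt.div (by fun_prop) (by fun_prop) (den_ne1 t).2)

lemma Ef_bd (n : ℕ) (hn : 1 ≤ n) (ε : ℝ) {B : ℝ}
    (hB : ∀ w : ℂ, ‖w‖ ≤ 1 → ‖F w‖ ≤ B) {r : ℝ} (hr0 : 0 ≤ r) (hr : r < 1) :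
    ∃ C : ℝ, ∀ (s : ℂ) (t : ℝ), ‖s‖ ≤ r → ‖Ef n ε F s t‖ ≤ C * (1 + t ^ 2)⁻¹ := by
  have h1r : 0 < 1 - r := by linarith
  set c : ℝ := (1 - r) ^ 2 / 17 with hc
  have hc0 : 0 < c := by positivity
  refine ⟨Real.exp (n * |ε| * (B + B)) * (c ^ n)⁻¹, fun s t hs => ?_⟩
  have h1 : ‖Complex.exp ((n : ℂ) * (ε : ℂ) * eF F s t)‖ ≤ Real.exp (n * |ε| * (B + B)) := by
    refine (Complex.norm_exp_le_exp_norm _).trans (Real.exp_le_exp.2 ?_)
    rw [norm_mul, norm_mul, Complex.norm_natCast, Complex.norm_real, Real.norm_eq_abs]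
    have := eF_bd hB (hs.trans hr.le) t
    gcongr
  have h2 : c ^ n * (1 + t ^ 2) ≤ ‖∏ j ∈ range n, ((1 - zt n j * s) ^ 2 + (t : ℂ) ^ 2)‖ := by
    rw [norm_prod]
    calc c ^ n * (1 + t ^ 2) ≤ c ^ n * (1 + t ^ 2) ^ n := by
          refine mul_le_mul_of_nonneg_left ?_ (by positivity)
          calc (1 + t ^ 2) = (1 + t ^ 2) ^ 1 := (pow_one _).symm
            _ ≤ (1 + t ^ 2) ^ n := pow_le_pow_right₀ (by nlinarith [sq_nonneg t]) hn
      _ = ∏ _j ∈ range n, (c * (1 + t ^ 2)) := by rw [prod_const, card_range, mul_pow]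
      _ ≤ _ := Finset.prod_le_prod (fun j _ => by positivity) fun j _ => fac_low' hr0 hr hs t
  have h3 : 0 < c ^ n * (1 + t ^ 2) := by positivity
  unfold Ef
  rw [norm_div]
  calc _ ≤ Real.exp (n * |ε| * (B + B)) / (c ^ n * (1 + t ^ 2)) :=
        div_le_div₀ (Real.exp_pos _).le h1 h3 h2
    _ = _ := by rw [div_eq_mul_inv, mul_inv]; ring

end

end P2e

open P2e Pool.Agent.BLP.P2ANx in
theorem p2an : P2AN := by
  intro n hn _ ε _ F φ A A2 p1 hF s hs
  rw [Metric.mem_ball, dist_zero_right] at hs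
  set R : ℝ := (1 - ‖s‖) / 2 with hR
  have hR0 : 0 < R := by linarith
  have hin : ∀ z ∈ Metric.ball s R, ‖z‖ ≤ ‖s‖ + R := by
    intro z hz
    rw [Metric.mem_ball, dist_eq_norm] at hz
    have : z = s + (z - s) := by ring
    rw [this]
    exact (norm_add_le _ _).trans (by linarith)
  have hlt : ‖s‖ + R < 1 := by rw [hR]; linarith
  obtain ⟨B, _, hB⟩ := hF.Fb
  obtain ⟨C, hC⟩ := P2e.Ef_bd n (by omega) ε hB (r := ‖s‖ + R) (by positivity) hlt
  have key : DifferentiableAt ℂ (fun z => ∫ t, Ef n ε F z t) s := by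
    refine holo_int hR0 (b := fun t => C * (1 + t ^ 2)⁻¹) (integrable_inv_one_add_sq.const_mul C)
      (fun z hz => (P2e.Ef_cont_t hF.Fd n ε ((hin z hz).trans_lt hlt)).aestronglyMeasurable)
      (fun t z hz => (P2e.Ef_diff_s hF.Fd n ε t ((hin z hz).trans_lt hlt)).differentiableWithinAt)
      (fun t z hz => hC z t (hin z hz))
  exact (key.const_mul _).differentiableWithinAt

end Pool.Agent.BLE
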