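import Pool.Agent.Lib.BLE.Defs
import Pool.Agent.Lib.BLP.W0B

/-!
Project BLE (MP_ef2672), row E2b: `(1 / 2π) ∫ |K(iy)|² dy ≤ 1` (helper44, after
`Lib/BLP/W0B.lean`).
-/

open Complex MeasureTheory Finset Set

namespace Pool.Agent.BLE

open Pool.Agent.KL Pool.Agent.BLP

namespace W0Bx

lemma arg_eq (y : ℝ) : (1 : ℂ) / ((y : ℂ) * I) = ((-1 / y : ℝ) : ℂ) * I := by
  rw [one_div, mul_inv, Complex.inv_I]
  push_cast
  ring

/-- The pointwise bound. -/
lemma pointwise {n : ℕ} (hn : 4 ≤ n) (he : Even n) {ε : ℝ} (hε : 0 ≤ ε) {F φ : ℂ → ℂ}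
    {A A2 p1 : ℝ} (H : HF F φ A A2 p1) (hA : 2 * ε * A ≤ 1 / 1000) {y : ℝ} (hy : y ≠ 0) :
    ‖BLE.Kf n ε φ ((y : ℂ) * I)‖ ^ 2 ≤ 2 * (1 + y ^ 2)⁻¹ := by
  have hy2 : 0 < y ^ 2 := by positivity
  obtain ⟨R, hR⟩ : ∃ R : ℝ, R = (F (((-1 / y : ℝ) : ℂ) * I)).re := ⟨_, rfl⟩
  have hφ : φ ((y : ℂ) * I) = F (((-1 / y : ℝ) : ℂ) * I) := by
    rw [H.link ((y : ℂ) * I) (by simp) (by simpa using hy), arg_eq]
  have hK : ‖BLE.Kf n ε φ ((y : ℂ) * I)‖ ^ 2 = Real.exp (2 * n * ε * R) / (1 + y ^ (2 * n)) := by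
    unfold BLE.Kf
    rw [norm_div, div_pow, BLP.W0Bx.norm_prod (by omega) he, Complex.norm_exp,
      ← Real.exp_nat_mul, hR, hφ]
    congr 2
    have h1 : ((n : ℂ) * (ε : ℂ) * F (((-1 / y : ℝ) : ℂ) * I)).re =
        n * ε * (F (((-1 / y : ℝ) : ℂ) * I)).re := by
      have h2 : ((n : ℂ) * (ε : ℂ)) = ((n * ε : ℝ) : ℂ) := by push_cast; rfl
      rw [h2, Complex.re_ofReal_mul]
    rw [h1]
    push_cast
    ring
  have hpow : ∀ {k : ℕ}, 0 < k → 1 ≤ y ^ 2 → y ^ 2 ≤ (y ^ 2) ^ k := by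
    intro k hk h1
    calc y ^ 2 = (y ^ 2) ^ 1 := (pow_one _).symm
      _ ≤ (y ^ 2) ^ k := pow_le_pow_right₀ h1 hk
  have hy2n : 0 ≤ y ^ (2 * n) := (even_two_mul n).pow_nonneg y
  rw [hK, ← div_eq_mul_inv]
  by_cases hr : |(-1 / y : ℝ)| ≤ 998 / 1000 ∨ 999 / 1000 ≤ |(-1 / y : ℝ)|
  · -- the exponential is at most one
    have h1 := H.sign _ hr
    rw [← hR] at h1
    have h2 : Real.exp (2 * n * ε * R) ≤ 1 := by
      rw [Real.exp_le_one_iff]
      exact mul_nonpos_of_nonneg_of_nonpos (by positivity) h1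
    calc Real.exp (2 * n * ε * R) / (1 + y ^ (2 * n)) ≤ 1 / (1 + y ^ (2 * n)) := by
          gcongr
      _ ≤ 2 / (1 + y ^ 2) := by
          rw [div_le_div_iff₀ (by positivity) (by positivity)]
          rcases le_or_gt (y ^ 2) 1 with h | h
          · linarith
          · have := hpow (k := n) (by omega) h.le
            rw [← pow_mul] at this
            linarith
  · -- `1 / 0.999 < |y|`
    rw [not_or, not_le, not_le] at hr
    have h1 : |(-1 / y : ℝ)| = 1 / |y| := by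
      rw [abs_div, abs_neg, abs_one]
    rw [h1] at hr
    have hya : 0 < |y| := abs_pos.mpr hy
    have h2 : 1000 / 999 < |y| := by
      have h3 := hr.2
      rw [div_lt_iff₀ hya] at h3
      linarith
    have h3 : R ≤ A := by
      rw [hR]
      exact H.sup _
    have h4 : Real.exp (2 * n * ε * R) ≤ |y| ^ n := by
      have h5 : 2 * n * ε * R ≤ n * (1 / 1000) := by
        have h6 : 2 * ε * R ≤ 2 * ε * A := mul_le_mul_of_nonneg_left h3 (by positivity)
        calc 2 * n * ε * R = n * (2 * ε * R) := by ring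
          _ ≤ n * (1 / 1000) := mul_le_mul_of_nonneg_left (h6.trans hA) (Nat.cast_nonneg n)
      have h7 : Real.exp (1 / 1000) ≤ |y| := by
        refine le_trans ?_ h2.le
        have h8 := Real.one_sub_le_exp_neg (1 / 1000)
        have h9 : Real.exp (1 / 1000) * Real.exp (-(1 / 1000)) = 1 := by
          rw [← Real.exp_add]
          simp
        have h10 := Real.exp_pos (1 / 1000 : ℝ)
        rw [le_div_iff₀ (by norm_num)]
        nlinarith
      calc Real.exp (2 * n * ε * R) ≤ Real.exp (n * (1 / 1000)) := Real.exp_le_exp.mpr h5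
        _ = Real.exp (1 / 1000) ^ n := Real.exp_nat_mul _ _
        _ ≤ |y| ^ n := pow_le_pow_left₀ (Real.exp_pos _).le h7 n
    have h5 : y ^ (2 * n) = |y| ^ n * |y| ^ n := by
      rw [← pow_add, ← two_mul, (even_two_mul n).pow_abs]
    have h6 : y ^ 2 ≤ |y| ^ n := by
      rw [← sq_abs]
      exact pow_le_pow_right₀ (by linarith) (by omega)
    have h7 : (1 : ℝ) ≤ y ^ 2 := by
      rw [← sq_abs]
      exact one_le_pow₀ (by linarith)
    rw [div_le_div_iff₀ (by positivity) (by positivity), h5]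
    have h8 : 0 < |y| ^ n := by positivity
    calc Real.exp (2 * n * ε * R) * (1 + y ^ 2) ≤ |y| ^ n * (2 * |y| ^ n) := by
          refine mul_le_mul h4 ?_ (by positivity) h8.le
          linarith
      _ ≤ 2 * (1 + |y| ^ n * |y| ^ n) := by
          nlinarith

end W0Bx

theorem w0b : W0B := by
  intro n hn he ε hε F φ A A2 p1 H hA
  have h1 : ∫ y : ℝ, ‖BLE.Kf n ε φ ((y : ℂ) * I)‖ ^ 2 ≤ ∫ y : ℝ, 2 * (1 + y ^ 2)⁻¹ := by
    refine integral_mono_of_nonneg (Filter.Eventually.of_forall fun y => sq_nonneg _)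
      (integrable_inv_one_add_sq.const_mul 2) ?_
    have h2 : ∀ᵐ y : ℝ, y ≠ 0 := by
      rw [ae_iff]
      simp
    filter_upwards [h2] with y hy
    exact W0Bx.pointwise hn he hε H hA hy
  rw [integral_const_mul, integral_univ_inv_one_add_sq] at h1
  rw [inv_mul_le_iff₀ (by positivity), mul_one]
  exact h1

end Pool.Agent.BLE
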