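import Pool.Agent.Lib.BLP.Poisson
import Pool.Agent.Lib.BLP.PW2
import Pool.Agent.Lib.BLP.LAPW
import Pool.Agent.Lib.BLP.PL
import Pool.Agent.Lib.BLP.Bgrow
import Pool.Agent.Lib.BLP.WinW
import Pool.Agent.Lib.BLP.QD
import Pool.Agent.Lib.BLP.SNEG
import Pool.Agent.Lib.BLP.Window
import Pool.Agent.Lib.BLP.Lat
import Pool.Agent.Lib.BLP.LatSum
import Pool.Agent.Lib.BLP.Tbound
import Pool.Agent.Lib.BLE.KPW
import Pool.Agent.Lib.BLE.W0B
import Pool.Agent.Lib.BLE.EQS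
import Pool.Agent.Lib.BLE.P2AN
import Pool.Agent.Lib.BLE.GLUE
import Pool.Agent.Lib.BLE.BND1
import Pool.Agent.Lib.BLE.BND2
import Pool.Agent.Lib.BLE.CLA
import Pool.Agent.Lib.BLE.TEST
import Pool.Agent.Lib.BLE.FIN1
import Pool.Agent.Lib.BLE.FIN2

/-!
Project BLE (MP_ef2672): the assembly, given the incoherence lemma and the perturbation with
numbers (helper54).
-/

open MeasureTheory Metric Filter Topology

namespace Pool.Agent.BLE

open Pool.Agent.BLP Pool.Agent.Lib.MP_ef2672_gt_Tauber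

theorem mainOf (hINC : INC) {F φ : ℂ → ℂ}
    (hF : HF F φ 115200 (26 * 10 ^ 24) (3438 / 625)) :
    limsup c atTop ≤ 1 / Real.pi ^ 2 - 1 / 10 ^ 27 ∧
      ∀ᶠ n : ℕ in atTop, c n ≤ 1 / Real.pi ^ 2 - 1 / 10 ^ 27 := by
  have hfin : FIN1 := fin1 pfr hINC (glue pw2 kpw w0b lapw p2an (eqs pw2 kpw)) bnd1 bnd2
    (cla win (qd pw2) sneg (sjb win pls blow) the bnd1 bnd2) lps (test pw2) sumb tb
  have H := hfin F φ 115200 (26 * 10 ^ 24) (3438 / 625) hF (19 / 10 ^ 27) (by norm_num)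
    (by norm_num) (by norm_num) (by norm_num) (by norm_num)
  have hpi := Real.pi_pos
  have hx : (1 - 19 / 10 ^ 27 * (3438 / 625) / 8) / Real.pi ^ 2 <
      1 / Real.pi ^ 2 - 1 / 10 ^ 27 := by
    have h1 : Real.pi ^ 2 < 10 := by
      have := Real.pi_lt_d2
      nlinarith
    have h2 : 1 / Real.pi ^ 2 - 1 / 10 ^ 27 = (1 - Real.pi ^ 2 / 10 ^ 27) / Real.pi ^ 2 := by
      field_simp
    rw [h2]
    refine div_lt_div_of_pos_right ?_ (by positivity)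
    have h3 : Real.pi ^ 2 / 10 ^ 27 < 10 / 10 ^ 27 := by gcongr
    have h4 : (10 : ℝ) / 10 ^ 27 ≤ 19 / 10 ^ 27 * (3438 / 625) / 8 := by norm_num
    linarith
  have h2 := fin3 (fin2 H) hx
  exact ⟨limsup_le h2, h2⟩

end Pool.Agent.BLE
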