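import Pool.Agent.Lib.BLE.Defs

/-!
Project BLE, row E7: the explicit perturbation (helper46).

`Q(x) + Q(1/x) = 128 H((x + 1/x)/2)` with
`H(s) = (25 s - 24) s^2 ((s + 1)(2 s^2 - 1)(16 s^2 - 1))^2`;
`F(w) = Q(x1) + Q(x2)`, `x1 = -i + 2 i ρ w/(1 - p0 w)`, `x2 = i - 2 i ρ w/(1 - conj p0 w)`,
`p0 = -ρ + i β`, `ρ = 0.001719`, `β = 0.999712`.
-/

set_option autoImplicit false

open Complex Finset Set

namespace Pool.Agent.BLE

open Pool.Agent.BLP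

noncomputable section

/-! ## The polynomial -/

/-- the coefficients -/
def cq : ℕ → ℝ
  | 0 => 1580
  | 1 => 4086
  | 2 => 4464
  | 3 => 5544
  | 4 => 6368
  | 5 => 6528
  | 6 => 6768
  | 7 => 6057
  | 8 => 5620
  | 9 => 4257
  | 10 => 3168
  | 11 => 1928
  | 12 => 832
  | 13 => 400
  | _ => 0

/-- the polynomial `Q` -/
def Qx (x : ℂ) : ℂ := ∑ k ∈ range 14, (cq k : ℂ) * x ^ k

/-- the polynomial `H` -/
def Hq (s : ℝ) : ℝ := (25 * s - 24) * s ^ 2 * ((s + 1) * (2 * s ^ 2 - 1) * (16 * s ^ 2 - 1)) ^ 2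

lemma cq_nonneg (k : ℕ) : 0 ≤ cq k := by
  unfold cq
  split <;> norm_num

lemma Qx_conj (x : ℂ) : Qx ((starRingEnd ℂ) x) = (starRingEnd ℂ) (Qx x) := by
  unfold Qx
  rw [map_sum]
  refine sum_congr rfl fun k _ => ?_
  rw [map_mul, map_pow, Complex.conj_ofReal]

lemma Qx_norm {x : ℂ} (hx : ‖x‖ ≤ 1) : ‖Qx x‖ ≤ 57600 := by
  unfold Qx
  refine (norm_sum_le_of_le (f := fun k => (cq k : ℂ) * x ^ k) (range 14)
    (n := fun k => cq k) fun k _ => ?_).trans ?_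
  · rw [norm_mul, norm_pow, Complex.norm_real, Real.norm_of_nonneg (cq_nonneg k)]
    exact mul_le_of_le_one_right (cq_nonneg k) (pow_le_one₀ (norm_nonneg _) hx)
  · simp only [sum_range_succ, sum_range_zero, cq]
    norm_num

lemma Qx_explicit (x : ℂ) : Qx x = 1580 + 4086 * x + 4464 * x ^ 2 + 5544 * x ^ 3 + 6368 * x ^ 4 +
    6528 * x ^ 5 + 6768 * x ^ 6 + 6057 * x ^ 7 + 5620 * x ^ 8 + 4257 * x ^ 9 + 3168 * x ^ 10 +
    1928 * x ^ 11 + 832 * x ^ 12 + 400 * x ^ 13 := by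
  unfold Qx
  simp only [sum_range_succ, sum_range_zero, cq]
  push_cast
  ring

lemma Qx_diff : Differentiable ℂ Qx := by
  unfold Qx
  fun_prop

/-- the key identity -/
lemma Qx_add {x : ℂ} (hx : x ≠ 0) : Qx x + Qx x⁻¹ =
    128 * ((25 * ((x + x⁻¹) / 2) - 24) * ((x + x⁻¹) / 2) ^ 2 * ((((x + x⁻¹) / 2) + 1) *
      (2 * ((x + x⁻¹) / 2) ^ 2 - 1) * (16 * ((x + x⁻¹) / 2) ^ 2 - 1)) ^ 2) := by
  rw [Qx_explicit, Qx_explicit]
  field_simp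
  ring

/-- on the circle `Re Q = 64 H(Re x)` -/
lemma Qx_re {x : ℂ} (hx : ‖x‖ = 1) : (Qx x).re = 64 * Hq x.re := by
  have hx0 : x ≠ 0 := by
    rintro rfl
    simp at hx
  have h1 : x⁻¹ = (starRingEnd ℂ) x := by
    rw [Complex.inv_def, Complex.normSq_eq_norm_sq, hx]
    simp
  have h2 := Qx_add hx0
  have h3 : (x + x⁻¹) / 2 = (x.re : ℂ) := by
    rw [h1, Complex.add_conj]
    push_cast
    ring
  rw [h3, h1, Qx_conj, Complex.add_conj] at h2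
  have h4 : ((2 * (Qx x).re : ℝ) : ℂ) = ((128 * Hq x.re : ℝ) : ℂ) := by
    rw [h2]
    unfold Hq
    push_cast
    ring
  have h5 := Complex.ofReal_injective h4
  linarith

lemma Hq_nonpos {s : ℝ} (hs : s ≤ 24 / 25) : Hq s ≤ 0 := by
  unfold Hq
  have h1 : 0 ≤ s ^ 2 * ((s + 1) * (2 * s ^ 2 - 1) * (16 * s ^ 2 - 1)) ^ 2 := by positivity
  have h2 : 25 * s - 24 ≤ 0 := by linarith
  calc (25 * s - 24) * s ^ 2 * ((s + 1) * (2 * s ^ 2 - 1) * (16 * s ^ 2 - 1)) ^ 2 =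
      (25 * s - 24) * (s ^ 2 * ((s + 1) * (2 * s ^ 2 - 1) * (16 * s ^ 2 - 1)) ^ 2) := by ring
    _ ≤ 0 := mul_nonpos_of_nonpos_of_nonneg h2 h1

/-! ## second differences of powers -/

lemma pow_sub_le {a c : ℂ} {X : ℝ} (hX : 1 ≤ X) (ha : ‖a‖ ≤ X) (hc : ‖c‖ ≤ 1) (k : ℕ) :
    ‖a ^ k - c ^ k‖ ≤ k * X ^ (k - 1) * ‖a - c‖ := by
  induction k with
  | zero => simp
  | succ k ih =>
    have h1 : a ^ (k + 1) - c ^ (k + 1) = c * (a ^ k - c ^ k) + (a - c) * a ^ k := by ring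
    rw [h1]
    refine (norm_add_le _ _).trans ?_
    rw [norm_mul, norm_mul, norm_pow]
    have h2 : ‖c‖ * ‖a ^ k - c ^ k‖ ≤ 1 * (k * X ^ (k - 1) * ‖a - c‖) :=
      mul_le_mul hc ih (norm_nonneg _) zero_le_one
    have h3 : ‖a - c‖ * ‖a‖ ^ k ≤ ‖a - c‖ * X ^ k :=
      mul_le_mul_of_nonneg_left (pow_le_pow_left₀ (norm_nonneg _) ha k) (norm_nonneg _)
    have h4 : (k : ℝ) * X ^ (k - 1) * ‖a - c‖ ≤ k * X ^ k * ‖a - c‖ := by
      have := pow_le_pow_right₀ hX (Nat.sub_le k 1)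
      gcongr
    push_cast
    have h5 : ((k : ℝ) + 1) * X ^ k * ‖a - c‖ = k * X ^ k * ‖a - c‖ + ‖a - c‖ * X ^ k := by ring
    rw [h5]
    linarith

/-- second differences of powers, `‖c‖ ≤ 1`, `‖a‖, ‖b‖ ≤ X` -/
lemma second {a b c : ℂ} {X δ : ℝ} (hX : 1 ≤ X) (ha : ‖a‖ ≤ X) (hb : ‖b‖ ≤ X) (hc : ‖c‖ ≤ 1)
    (hδ : 0 ≤ δ) (h1 : ‖a + b - 2 * c‖ ≤ δ) (h2 : ‖a - c‖ ^ 2 ≤ δ) (h3 : ‖b - c‖ ^ 2 ≤ δ)
    (k : ℕ) : ‖a ^ k + b ^ k - 2 * c ^ k‖ ≤ (k : ℝ) ^ 2 * X ^ (k - 2) * δ := by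
  induction k with
  | zero =>
    simp only [pow_zero]
    norm_num
  | succ k ih =>
    have e1 : a ^ (k + 1) + b ^ (k + 1) - 2 * c ^ (k + 1) =
        c * (a ^ k + b ^ k - 2 * c ^ k) + ((a - c) * (a ^ k - c ^ k) + (b - c) * (b ^ k - c ^ k)) +
        (a + b - 2 * c) * c ^ k := by ring
    rw [e1]
    refine (norm_add_le _ _).trans ?_
    have hX0 : 0 ≤ X := by linarith
    have hk0 : (0 : ℝ) ≤ k := Nat.cast_nonneg k
    have n1 : ‖c * (a ^ k + b ^ k - 2 * c ^ k)‖ ≤ (k : ℝ) ^ 2 * X ^ (k - 1) * δ := by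
      rw [norm_mul]
      calc ‖c‖ * ‖a ^ k + b ^ k - 2 * c ^ k‖ ≤ 1 * ((k : ℝ) ^ 2 * X ^ (k - 2) * δ) :=
            mul_le_mul hc ih (norm_nonneg _) zero_le_one
        _ = (k : ℝ) ^ 2 * X ^ (k - 2) * δ := one_mul _
        _ ≤ (k : ℝ) ^ 2 * X ^ (k - 1) * δ := by
            have := pow_le_pow_right₀ hX (show k - 2 ≤ k - 1 by omega)
            gcongr
    have n2 : ‖(a - c) * (a ^ k - c ^ k)‖ ≤ k * X ^ (k - 1) * δ := by
      rw [norm_mul]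
      have := pow_sub_le hX ha hc k
      calc ‖a - c‖ * ‖a ^ k - c ^ k‖ ≤ ‖a - c‖ * (k * X ^ (k - 1) * ‖a - c‖) :=
            mul_le_mul_of_nonneg_left this (norm_nonneg _)
        _ = k * X ^ (k - 1) * ‖a - c‖ ^ 2 := by ring
        _ ≤ k * X ^ (k - 1) * δ := mul_le_mul_of_nonneg_left h2 (by positivity)
    have n3 : ‖(b - c) * (b ^ k - c ^ k)‖ ≤ k * X ^ (k - 1) * δ := by
      rw [norm_mul]
      have := pow_sub_le hX hb hc k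
      calc ‖b - c‖ * ‖b ^ k - c ^ k‖ ≤ ‖b - c‖ * (k * X ^ (k - 1) * ‖b - c‖) :=
            mul_le_mul_of_nonneg_left this (norm_nonneg _)
        _ = k * X ^ (k - 1) * ‖b - c‖ ^ 2 := by ring
        _ ≤ k * X ^ (k - 1) * δ := mul_le_mul_of_nonneg_left h3 (by positivity)
    have n4 : ‖(a + b - 2 * c) * c ^ k‖ ≤ X ^ (k - 1) * δ := by
      rw [norm_mul, norm_pow]
      calc ‖a + b - 2 * c‖ * ‖c‖ ^ k ≤ δ * 1 :=
            mul_le_mul h1 (pow_le_one₀ (norm_nonneg _) hc) (by positivity) hδ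
        _ = 1 * δ := by ring
        _ ≤ X ^ (k - 1) * δ := mul_le_mul_of_nonneg_right (one_le_pow₀ hX) hδ
    have n5 := norm_add_le (c * (a ^ k + b ^ k - 2 * c ^ k))
      ((a - c) * (a ^ k - c ^ k) + (b - c) * (b ^ k - c ^ k))
    have n6 := norm_add_le ((a - c) * (a ^ k - c ^ k)) ((b - c) * (b ^ k - c ^ k))
    have e2 : ((k + 1 : ℕ) : ℝ) ^ 2 * X ^ (k + 1 - 2) * δ =
        (k : ℝ) ^ 2 * X ^ (k - 1) * δ + (k * X ^ (k - 1) * δ + k * X ^ (k - 1) * δ) +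
          X ^ (k - 1) * δ := by
      rw [show k + 1 - 2 = k - 1 by omega]
      push_cast
      ring
    rw [e2]
    linarith

lemma Qx_second {a b c : ℂ} {δ : ℝ} (ha : ‖a‖ ≤ 207 / 16) (hb : ‖b‖ ≤ 207 / 16) (hc : ‖c‖ ≤ 1)
    (hδ : 0 ≤ δ) (h1 : ‖a + b - 2 * c‖ ≤ δ) (h2 : ‖a - c‖ ^ 2 ≤ δ) (h3 : ‖b - c‖ ^ 2 ≤ δ) :
    ‖Qx a + Qx b - 2 * Qx c‖ ≤ 1333 / 1000 * 10 ^ 17 * δ := by
  have e : Qx a + Qx b - 2 * Qx c = ∑ k ∈ range 14, (cq k : ℂ) * (a ^ k + b ^ k - 2 * c ^ k) := by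
    unfold Qx
    rw [← sum_add_distrib, mul_sum, ← sum_sub_distrib]
    refine sum_congr rfl fun k _ => ?_
    ring
  rw [e]
  refine (norm_sum_le_of_le (range 14)
    (n := fun k => cq k * ((k : ℝ) ^ 2 * (207 / 16 : ℝ) ^ (k - 2) * δ)) fun k _ => ?_).trans ?_
  · rw [norm_mul, Complex.norm_real, Real.norm_of_nonneg (cq_nonneg k)]
    exact mul_le_mul_of_nonneg_left (second (by norm_num) ha hb hc hδ h1 h2 h3 k) (cq_nonneg k)
  · have e2 : ∀ k : ℕ, cq k * ((k : ℝ) ^ 2 * (207 / 16 : ℝ) ^ (k - 2) * δ) =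
        (cq k * ((k : ℝ) ^ 2 * (207 / 16 : ℝ) ^ (k - 2))) * δ := fun k => by ring
    rw [sum_congr rfl fun k _ => e2 k, ← sum_mul]
    refine mul_le_mul_of_nonneg_right ?_ hδ
    simp only [sum_range_succ, sum_range_zero, cq]
    norm_num

end

end Pool.Agent.BLE
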