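import Pool.Agent.Lib.BLP.BND2
import Pool.Agent.Lib.BLE.Defs

/-!
# Bounds for the perturbed function `Psi` on the real axis (row E4 of project BLE)

The file `Lib/BLP/RealBounds.lean` with the polynomial replaced by the pair `F`, `φ`.
-/

set_option autoImplicit false

namespace Pool.Agent.BLE

open Complex MeasureTheory Finset
open scoped Real
open Pool.Agent.KL Pool.Agent.BLP

noncomputable section

/-- the exponent for real `s` -/
def eR (F : ℂ → ℂ) (s t : ℝ) : ℝ := 2 * (F ((s : ℂ) / (1 + t * I))).re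

lemma norm_den1_ge (t : ℝ) : 1 ≤ ‖(1 + t * I : ℂ)‖ := by
  have h := Complex.abs_re_le_norm (1 + t * I : ℂ)
  have h2 : (1 + t * I : ℂ).re = 1 := by simp
  rw [h2, abs_one] at h
  exact h

lemma den1_ne (t : ℝ) : (1 + t * I : ℂ) ≠ 0 := by
  intro h
  have := norm_den1_ge t
  rw [h, norm_zero] at this
  linarith

lemma norm_w1_le {s : ℝ} (hs : 0 ≤ s) (t : ℝ) : ‖(s : ℂ) / (1 + t * I)‖ ≤ s := by
  rw [norm_div, Complex.norm_real, Real.norm_of_nonneg hs]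
  exact div_le_self hs (norm_den1_ge t)

lemma w1_re {s : ℝ} (t : ℝ) : ((s : ℂ) / (1 + t * I)).re = s / (1 + t ^ 2) := by
  rw [Complex.div_re, Complex.normSq_apply]
  simp
  ring

lemma w1_conj (s t : ℝ) :
    (s : ℂ) / (1 - t * I) = (starRingEnd ℂ) ((s : ℂ) / (1 + t * I)) := by
  rw [map_div₀, map_add, map_mul, conj_ofReal, conj_ofReal, conj_I, map_one]
  congr 1
  ring

lemma eF_real {F : ℂ → ℂ} (hj : ∀ w : ℂ, ‖w‖ ≤ 1 → F ((starRingEnd ℂ) w) = (starRingEnd ℂ) (F w))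
    {s : ℝ} (hs : 0 ≤ s) (hs1 : s ≤ 1) (t : ℝ) : eF F s t = (eR F s t : ℂ) := by
  unfold eF eR
  rw [w1_conj, hj _ ((norm_w1_le hs t).trans hs1), Complex.add_conj]

section bounds

variable {F : ℂ → ℂ} {p1 A3 : ℝ}

lemma eR_bound (hF : ∀ w : ℂ, ‖w‖ ≤ 1 → ‖F w - (p1 : ℂ) * w‖ ≤ A3 * ‖w‖ ^ 2) (hA3 : 0 ≤ A3)
    {s : ℝ} (hs : 0 ≤ s) (hs1 : s ≤ 1) (t : ℝ) :
    |eR F s t - 2 * p1 * s / (1 + t ^ 2)| ≤ 2 * A3 * s ^ 2 := by
  have hwn := norm_w1_le hs t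
  have hre := w1_re (s := s) t
  obtain ⟨w, hw⟩ : ∃ w : ℂ, w = (s : ℂ) / (1 + t * I) := ⟨_, rfl⟩
  rw [← hw] at hwn hre
  have h1 := hF w (hwn.trans hs1)
  have h2 := (Complex.abs_re_le_norm (F w - (p1 : ℂ) * w)).trans h1
  rw [Complex.sub_re, Complex.re_ofReal_mul, hre] at h2
  have h3 : A3 * ‖w‖ ^ 2 ≤ A3 * s ^ 2 :=
    mul_le_mul_of_nonneg_left (pow_le_pow_left₀ (norm_nonneg _) hwn 2) hA3
  have h5 : eR F s t - 2 * p1 * s / (1 + t ^ 2) = 2 * ((F w).re - p1 * (s / (1 + t ^ 2))) := by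
    rw [eR, ← hw]
    ring
  rw [h5, abs_mul, abs_two]
  linarith

lemma eR_continuous (hc : ContinuousOn F (Metric.closedBall 0 1)) {s : ℝ} (hs : 0 ≤ s)
    (hs1 : s ≤ 1) : Continuous (fun t => eR F s t) := by
  unfold eR
  have h : Continuous fun t : ℝ => (s : ℂ) / (1 + t * I) :=
    continuous_const.div (by fun_prop) fun t => den1_ne t
  have h2 : Continuous fun t : ℝ => F ((s : ℂ) / (1 + t * I)) :=
    hc.comp_continuous h fun t => by
      rw [Metric.mem_closedBall, dist_zero_right]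
      exact (norm_w1_le hs t).trans hs1
  exact continuous_const.mul (Complex.continuous_re.comp h2)

end bounds

section real

variable {n : ℕ} {ζ : Fin n → ℂ} {F : ℂ → ℂ} {p1 A3 : ℝ}

variable (h1 : ∀ j, ‖ζ j‖ = 1) (h2 : ∀ j, (ζ j).re ≤ 0)

/-- the integrand for real `s` -/
def gR (n : ℕ) (ζ : Fin n → ℂ) (ε : ℝ) (F : ℂ → ℂ) (s t : ℝ) : ℝ :=
  Real.exp (n * ε * eR F s t) / RR ζ s t

include h1 h2

lemma gR_integrable (hc : ContinuousOn F (Metric.closedBall 0 1))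
    (hF : ∀ w : ℂ, ‖w‖ ≤ 1 → ‖F w - (p1 : ℂ) * w‖ ≤ A3 * ‖w‖ ^ 2) (hA3 : 0 ≤ A3)
    {ε : ℝ} (hε : 0 ≤ ε) {s : ℝ} (hs : 0 ≤ s) (hs1 : s ≤ 1)
    (hn : 1 ≤ n) : Integrable (fun t => gR n ζ ε F s t) := by
  have hcc : Continuous (fun t => gR n ζ ε F s t) := by
    unfold gR
    exact (Real.continuous_exp.comp (continuous_const.mul (eR_continuous hc hs hs1))).div
      (RR_continuous s) fun t => (RR_pos h1 h2 hs hs1 t).ne'
  refine ((RR_integrable h1 h2 hs hs1 hn).const_mul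
    (Real.exp (n * ε * (2 * |p1| * s + 2 * A3 * s ^ 2)))).mono'
    hcc.aestronglyMeasurable (Filter.Eventually.of_forall fun t => ?_)
  have h3 := RR_pos h1 h2 hs hs1 t
  have h4 : eR F s t ≤ 2 * |p1| * s + 2 * A3 * s ^ 2 := by
    have h5 := (abs_le.1 (eR_bound hF hA3 hs hs1 t)).2
    have h6 : 2 * p1 * s / (1 + t ^ 2) ≤ 2 * |p1| * s := by
      have hT1 : 1 ≤ 1 + t ^ 2 := by nlinarith [sq_nonneg t]
      have h7 : 2 * p1 * s ≤ 2 * |p1| * s := by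
        have := mul_le_mul_of_nonneg_right (le_abs_self p1) hs
        linarith
      have h8 : 0 ≤ 2 * |p1| * s := by positivity
      rw [div_le_iff₀ (by linarith)]
      nlinarith
    linarith
  rw [Real.norm_eq_abs, gR, abs_of_pos (div_pos (Real.exp_pos _) h3), div_eq_mul_one_div]
  refine mul_le_mul_of_nonneg_right (Real.exp_le_exp.2 ?_) (one_div_pos.2 h3).le
  exact mul_le_mul_of_nonneg_left h4 (by positivity)

/-- the lower bound for real `s` -/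
theorem psi2_lower (hc : ContinuousOn F (Metric.closedBall 0 1))
    (hF : ∀ w : ℂ, ‖w‖ ≤ 1 → ‖F w - (p1 : ℂ) * w‖ ≤ A3 * ‖w‖ ^ 2) (hA3 : 0 ≤ A3)
    {ε : ℝ} (hε : 0 ≤ ε) {s : ℝ} (hs : 0 ≤ s) (hs1 : s ≤ 1)
    (hn : 1 ≤ n) (hS : 0 ≤ SS ζ - n * ε * p1) :
    Real.exp (-(2 * s * (SS ζ - n * ε * p1) + (1 + 2 * (ε * A3)) * n * s ^ 2)) *
      ∫ t : ℝ, 1 / (1 + t ^ 2) ^ n ≤ ∫ t, gR n ζ ε F s t := by
  rw [← integral_const_mul]
  refine integral_mono_of_nonneg (Filter.Eventually.of_forall fun t => by positivity)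
    (gR_integrable h1 h2 hc hF hA3 hε hs hs1 hn) (Filter.Eventually.of_forall fun t => ?_)
  have hT0 : 0 < 1 + t ^ 2 := by positivity
  have hT1 : 1 ≤ 1 + t ^ 2 := by nlinarith [sq_nonneg t]
  have h3 := RR_le' h1 (s := s) t
  have h4 := RR_pos h1 h2 hs hs1 t
  have h5 := one_div_le_one_div_of_le h4 h3
  have h6 := (abs_le.1 (eR_bound hF hA3 hs hs1 t)).1
  have h7 : 1 / (1 + t ^ 2) ≤ 1 := by rw [div_le_one hT0]; exact hT1
  have h8 : 0 ≤ 1 / (1 + t ^ 2) := by positivity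
  simp only
  rw [gR, div_eq_mul_one_div (Real.exp _) (RR ζ s t)]
  have h9 : -(2 * s * (SS ζ - n * ε * p1) + (1 + 2 * (ε * A3)) * n * s ^ 2) ≤
      n * ε * eR F s t - (2 * s * SS ζ + n * s ^ 2) / (1 + t ^ 2) := by
    have e1 : (n : ℝ) * ε * (2 * p1 * s / (1 + t ^ 2) - 2 * A3 * s ^ 2) ≤ n * ε * eR F s t :=
      mul_le_mul_of_nonneg_left (by linarith) (by positivity)
    have e2 : 2 * s * (SS ζ - n * ε * p1) * (1 / (1 + t ^ 2)) ≤
        2 * s * (SS ζ - n * ε * p1) * 1 := mul_le_mul_of_nonneg_left h7 (by positivity)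
    have e3 : (n : ℝ) * s ^ 2 * (1 / (1 + t ^ 2)) ≤ n * s ^ 2 * 1 :=
      mul_le_mul_of_nonneg_left h7 (by positivity)
    have e4 : (2 * s * SS ζ + n * s ^ 2) / (1 + t ^ 2) =
        2 * s * (SS ζ - n * ε * p1) * (1 / (1 + t ^ 2)) + n * s ^ 2 * (1 / (1 + t ^ 2)) +
        n * ε * (2 * p1 * s / (1 + t ^ 2)) := by ring
    rw [e4]
    nlinarith [e1, e2, e3]
  calc Real.exp (-(2 * s * (SS ζ - n * ε * p1) + (1 + 2 * (ε * A3)) * n * s ^ 2)) *
        (1 / (1 + t ^ 2) ^ n)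
      ≤ Real.exp (n * ε * eR F s t - (2 * s * SS ζ + n * s ^ 2) / (1 + t ^ 2)) *
        (1 / (1 + t ^ 2) ^ n) :=
        mul_le_mul_of_nonneg_right (Real.exp_le_exp.2 h9) (by positivity)
    _ = Real.exp (n * ε * eR F s t) *
        (1 / ((1 + t ^ 2) ^ n * Real.exp ((2 * s * SS ζ + n * s ^ 2) / (1 + t ^ 2)))) := by
        rw [Real.exp_sub]
        field_simp
    _ ≤ _ := mul_le_mul_of_nonneg_left h5 (Real.exp_pos _).le

/-- the upper bound for real `s` -/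
theorem psi2_upper (hc : ContinuousOn F (Metric.closedBall 0 1))
    (hF : ∀ w : ℂ, ‖w‖ ≤ 1 → ‖F w - (p1 : ℂ) * w‖ ≤ A3 * ‖w‖ ^ 2) (hA3 : 0 ≤ A3)
    {ε : ℝ} (hε : 0 ≤ ε) {s : ℝ} (hs : 0 ≤ s) (hs1 : s ≤ 1)
    (hn : 1 ≤ n) (hS : 0 ≤ SS ζ - n * ε * p1) (hS' : 2 * s * (SS ζ - n * ε * p1) ≤ n - 1) :
    ∫ t, gR n ζ ε F s t ≤ Real.pi * Real.exp (-(2 * s * (SS ζ - n * ε * p1)) +
      (3 + 2 * (ε * A3)) * n * s ^ 2) := by
  set S' : ℝ := SS ζ - n * ε * p1 with hS'd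
  have hA : 0 ≤ 2 * s * S' := by positivity
  have hint : ∫ t : ℝ, Real.exp (-(2 * s * S') + (3 + 2 * (ε * A3)) * n * s ^ 2) * (1 + t ^ 2)⁻¹ =
      Real.pi * Real.exp (-(2 * s * S') + (3 + 2 * (ε * A3)) * n * s ^ 2) := by
    rw [integral_const_mul, integral_univ_inv_one_add_sq, mul_comm]
  rw [← hint]
  refine integral_mono (gR_integrable h1 h2 hc hF hA3 hε hs hs1 hn)
    (integrable_inv_one_add_sq.const_mul _) fun t => ?_
  have hT1 : 1 ≤ 1 + t ^ 2 := by nlinarith [sq_nonneg t]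
  have hT0 : 0 < 1 + t ^ 2 := by linarith
  have h3 := RR_ge h1 h2 hs hs1 t
  have h3' := RR_pos h1 h2 hs hs1 t
  have h6 := (abs_le.1 (eR_bound hF hA3 hs hs1 t)).2
  -- `exp(A/T) T^n ≥ exp(A) T`
  have h4 : Real.exp (2 * s * S') * (1 + t ^ 2) ≤
      (1 + t ^ 2) ^ n * Real.exp (2 * s * S' / (1 + t ^ 2)) := by
    have h5 : 1 - 1 / (1 + t ^ 2) ≤ Real.log (1 + t ^ 2) := by
      have := Real.one_sub_inv_le_log_of_pos hT0
      rwa [one_div]
    have h6 : (1 + t ^ 2) ^ n = Real.exp (n * Real.log (1 + t ^ 2)) := by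
      rw [Real.exp_nat_mul, Real.exp_log hT0]
    have hl : 0 ≤ Real.log (1 + t ^ 2) := Real.log_nonneg hT1
    have h66 : Real.exp (2 * s * S') * (1 + t ^ 2) =
        Real.exp (2 * s * S' + Real.log (1 + t ^ 2)) := by
      rw [Real.exp_add, Real.exp_log hT0]
    rw [h6, ← Real.exp_add, h66]
    apply Real.exp_le_exp.2
    have h7 : 2 * s * S' * (1 - 1 / (1 + t ^ 2)) ≤ (n - 1) * Real.log (1 + t ^ 2) := by
      calc _ ≤ 2 * s * S' * Real.log (1 + t ^ 2) := by gcongr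
        _ ≤ _ := by gcongr
    have h8 : 2 * s * S' / (1 + t ^ 2) = 2 * s * S' * (1 / (1 + t ^ 2)) := by ring
    rw [h8]
    linarith
  have h10 : n * ε * eR F s t ≤ 2 * s * SS ζ / (1 + t ^ 2) - 2 * s * S' / (1 + t ^ 2) +
      2 * (ε * A3) * n * s ^ 2 := by
    have e1 : n * ε * eR F s t ≤ n * ε * (2 * p1 * s / (1 + t ^ 2) + 2 * A3 * s ^ 2) :=
      mul_le_mul_of_nonneg_left (by linarith) (by positivity)
    refine e1.trans (le_of_eq ?_)
    rw [hS'd]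
    field_simp
    ring
  change gR n ζ ε F s t ≤ _
  rw [gR, div_le_iff₀ h3']
  refine (Real.exp_le_exp.2 h10).trans ?_
  refine le_trans ?_ (mul_le_mul_of_nonneg_left h3
    (by positivity : 0 ≤ Real.exp (-(2 * s * S') + (3 + 2 * (ε * A3)) * n * s ^ 2) *
      (1 + t ^ 2)⁻¹))
  have e1 : Real.exp (2 * s * SS ζ / (1 + t ^ 2) - 2 * s * S' / (1 + t ^ 2) +
      2 * (ε * A3) * n * s ^ 2) =
      Real.exp (2 * s * SS ζ / (1 + t ^ 2)) * (Real.exp (2 * s * S' / (1 + t ^ 2)))⁻¹ *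
        Real.exp (2 * (ε * A3) * n * s ^ 2) := by
    rw [Real.exp_add, Real.exp_sub, div_eq_mul_inv]
  have e2 : Real.exp (-(2 * s * S') + (3 + 2 * (ε * A3)) * n * s ^ 2) * (1 + t ^ 2)⁻¹ *
      ((1 + t ^ 2) ^ n * Real.exp (2 * s * SS ζ / (1 + t ^ 2) - 3 * n * s ^ 2)) =
      Real.exp (2 * s * SS ζ / (1 + t ^ 2)) *
        ((Real.exp (2 * s * S') * (1 + t ^ 2))⁻¹ * (1 + t ^ 2) ^ n) *
        Real.exp (2 * (ε * A3) * n * s ^ 2) := by
    rw [show -(2 * s * S') + (3 + 2 * (ε * A3)) * n * s ^ 2 =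
      -(2 * s * S') + (2 * (ε * A3) * n * s ^ 2 + 3 * n * s ^ 2) by ring, Real.exp_add,
      Real.exp_add, Real.exp_sub, Real.exp_neg, mul_inv]
    have := Real.exp_pos (3 * n * s ^ 2)
    field_simp
  rw [e1, e2]
  refine mul_le_mul_of_nonneg_right (mul_le_mul_of_nonneg_left ?_ (Real.exp_pos _).le)
    (Real.exp_pos _).le
  rw [inv_mul_eq_div, le_div_iff₀ (by positivity), inv_mul_le_iff₀ (by positivity)]
  linarith

end real

end

end Pool.Agent.BLE
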